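import Pool.Agent.U696.MO.Part

open scoped BigOperators

namespace Pool.Agent.U696.MO

lemma eMin_block (N d q R : ℕ) (hd : 0 < d) (hN : d ≤ N) (hR : R ≤ d) :
    (eMin N d (q * d + R) : ℝ) = (eMin N d (q * d) : ℝ) *
      ∏ r ∈ Finset.range R, ((N : ℝ) + q - r) := by
  unfold eMin
  rw [Finset.prod_range_add]
  push_cast
  congr 1
  refine Finset.prod_congr rfl fun r hr => ?_
  have hr' : r < R := Finset.mem_range.1 hr
  have h1 : (q * d + r) / d = q := by
    rw [mul_comm, Nat.mul_add_div hd, Nat.div_eq_of_lt (by omega), add_zero]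
  have h2 : (q * d + r) % d = r := by
    rw [mul_comm, Nat.mul_add_mod, Nat.mod_eq_of_lt (by omega)]
  rw [h1, h2, Nat.cast_sub (by omega)]
  push_cast; ring

lemma asc_block (E q d R : ℕ) :
    (E.ascFactorial (q * d + R) : ℝ) * (d : ℝ) ^ (q * d + R) =
      ((E.ascFactorial (q * d) : ℝ) * (d : ℝ) ^ (q * d)) *
        ∏ r ∈ Finset.range R, (((E : ℝ) + (q * d + r)) * d) := by
  induction R with
  | zero => simp
  | succ R ih =>
    rw [Finset.prod_range_succ, ← mul_assoc, ← ih, ← add_assoc, Nat.ascFactorial_succ, pow_succ]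
    push_cast; ring

lemma rec_block (d q R : ℕ) (r : ℕ → ℝ)
    (hrec : ∀ t : ℕ, ((t : ℝ) + 1) * (d : ℝ) ^ 2 * r t ≤ r (t + 1) * ((d : ℝ) ^ 2 + t)) :
    r (q * d) * ∏ i ∈ Finset.range R, (((q * d + i : ℕ) : ℝ) + 1) * (d : ℝ) ^ 2 ≤
      r (q * d + R) * ∏ i ∈ Finset.range R, ((d : ℝ) ^ 2 + ((q * d + i : ℕ) : ℝ)) := by
  induction R with
  | zero => simp
  | succ R ih =>
    rw [Finset.prod_range_succ, Finset.prod_range_succ]
    set A := ∏ i ∈ Finset.range R, (((q * d + i : ℕ) : ℝ) + 1) * (d : ℝ) ^ 2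
    set B := ∏ i ∈ Finset.range R, ((d : ℝ) ^ 2 + ((q * d + i : ℕ) : ℝ)) with hB
    have hB0 : 0 ≤ B := Finset.prod_nonneg fun i _ => by positivity
    have h1 := hrec (q * d + R)
    calc r (q * d) * (A * ((((q * d + R : ℕ) : ℝ) + 1) * (d : ℝ) ^ 2))
        = (r (q * d) * A) * ((((q * d + R : ℕ) : ℝ) + 1) * (d : ℝ) ^ 2) := by ring
      _ ≤ (r (q * d + R) * B) * ((((q * d + R : ℕ) : ℝ) + 1) * (d : ℝ) ^ 2) :=
          mul_le_mul_of_nonneg_right ih (by positivity)
      _ = B * ((((q * d + R : ℕ) : ℝ) + 1) * (d : ℝ) ^ 2 * r (q * d + R)) := by ring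
      _ ≤ B * (r (q * d + R + 1) * ((d : ℝ) ^ 2 + ((q * d + R : ℕ) : ℝ))) :=
          mul_le_mul_of_nonneg_left h1 hB0
      _ = _ := by rw [← add_assoc]; ring

/-- the elementary inequality -/
lemma elem (d E q r R : ℝ) (hd : 1 ≤ d) (hE : 2 ≤ E) (hq : 1 ≤ q) (hr : 0 ≤ r) (hR : R ≤ d) :
    (E + (q * d + r)) * d * (d ^ 2 + (q * d + r)) ≤
      ((q * d + r + 1) * d ^ 2) * (d * E + q - (R - 1 - r)) := by
  have h1 : ((q * d + r + 1) * d ^ 2) * (d * E + q - (d - 1 - r)) ≤
      ((q * d + r + 1) * d ^ 2) * (d * E + q - (R - 1 - r)) := by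
    refine mul_le_mul_of_nonneg_left (by linarith) (by positivity)
  refine le_trans ?_ h1
  have hid : ((q * d + r + 1) * d ^ 2) * (d * E + q - (d - 1 - r)) -
      (E + (q * d + r)) * d * (d ^ 2 + (q * d + r)) =
      d * ((E - 2) * (q * d + r) * (d ^ 2 - 1) + (q * d + r + 1) * r * (d - 1) +
        (q * d + r - d) * (d - 1)) := by ring
  have h2 : 0 ≤ (E - 2) * (q * d + r) * (d ^ 2 - 1) := by
    refine mul_nonneg (mul_nonneg (by linarith) (by positivity)) (by nlinarith)
  have h3 : 0 ≤ (q * d + r + 1) * r * (d - 1) := by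
    refine mul_nonneg (by positivity) (by linarith)
  have h4 : 0 ≤ (q * d + r - d) * (d - 1) := by
    refine mul_nonneg ?_ (by linarith)
    nlinarith
  have h5 : 0 ≤ d * ((E - 2) * (q * d + r) * (d ^ 2 - 1) + (q * d + r + 1) * r * (d - 1) +
        (q * d + r - d) * (d - 1)) := by
    refine mul_nonneg (by linarith) (by linarith)
  linarith

lemma small_t (d E : ℕ) (hd : 0 < d) (hE : 2 ≤ E) (t : ℕ) (ht : t ≤ d) :
    (E.ascFactorial t : ℝ) * (d : ℝ) ^ t ≤ (t.factorial : ℝ) * (eMin (d * E) d t : ℝ) := by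
  have hN : d ≤ d * E := Nat.le_mul_of_pos_right d (by omega)
  have h1 := eMin_block (d * E) d 0 t hd hN ht
  have h2 := asc_block E 0 d t
  simp only [zero_mul, zero_add, Nat.cast_zero, add_zero] at h1 h2
  rw [h2, h1]
  have h3 : (eMin (d * E) d 0 : ℝ) = 1 := by simp [eMin]
  have h4 : (t.factorial : ℝ) = ∏ r ∈ Finset.range t, ((r : ℝ) + 1) := by
    rw [← Finset.prod_range_add_one_eq_factorial]; push_cast; rfl
  rw [h3, one_mul, h4, ← Finset.prod_mul_distrib]
  simp only [Nat.ascFactorial_zero, Nat.cast_one, pow_zero, mul_one, one_mul]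
  refine Finset.prod_le_prod (fun r _ => by positivity) fun r hr => ?_
  have hr' : (r : ℝ) + 1 ≤ d := by
    have : r + 1 ≤ d := by have := Finset.mem_range.1 hr; omega
    exact_mod_cast this
  have hE' : (2 : ℝ) ≤ E := by exact_mod_cast hE
  have hr0 : (0 : ℝ) ≤ r := by positivity
  have hd1 : (1 : ℝ) ≤ d := by exact_mod_cast hd
  push_cast
  have hid : ((r : ℝ) + 1) * ((d : ℝ) * E - r) - (E + r) * d =
      r * (d * (E - 1) - r - 1) := by ring
  have h5 : 0 ≤ (r : ℝ) * (d * (E - 1) - r - 1) := by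
    refine mul_nonneg hr0 ?_
    nlinarith
  linarith

theorem num_ineq (d E : ℕ) (hd : 0 < d) (hE : 2 ≤ E) (r : ℕ → ℝ)
    (hr0 : ∀ t, 0 ≤ r t) (hfac : ∀ t, t ≤ d → r t = (t.factorial : ℝ))
    (hrec : ∀ t : ℕ, ((t : ℝ) + 1) * (d : ℝ) ^ 2 * r t ≤ r (t + 1) * ((d : ℝ) ^ 2 + t)) (t : ℕ) :
    (E.ascFactorial t : ℝ) * (d : ℝ) ^ t ≤ r t * (eMin (d * E) d t : ℝ) := by
  have hN : d ≤ d * E := Nat.le_mul_of_pos_right d (by omega)
  have hblock : ∀ q R : ℕ, 1 ≤ q → R ≤ d →
      (E.ascFactorial (q * d) : ℝ) * (d : ℝ) ^ (q * d) ≤ r (q * d) * (eMin (d * E) d (q * d) : ℝ) →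
      (E.ascFactorial (q * d + R) : ℝ) * (d : ℝ) ^ (q * d + R) ≤
        r (q * d + R) * (eMin (d * E) d (q * d + R) : ℝ) := by
    intro q R hq hR hP
    have hb1 := eMin_block (d * E) d q R hd hN hR
    have hb2 := asc_block E q d R
    have hb3 := rec_block d q R r hrec
    rw [hb1, hb2]
    set B := ∏ i ∈ Finset.range R, ((d : ℝ) ^ 2 + ((q * d + i : ℕ) : ℝ)) with hB
    set A := ∏ i ∈ Finset.range R, (((E : ℝ) + (q * d + i)) * d) with hA
    set C := ∏ i ∈ Finset.range R, (((q * d + i : ℕ) : ℝ) + 1) * (d : ℝ) ^ 2 with hC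
    set D := ∏ i ∈ Finset.range R, (((d * E : ℕ) : ℝ) + q - i) with hD
    set e := (eMin (d * E) d (q * d) : ℝ) with he
    have hBpos : 0 < B := Finset.prod_pos fun i _ => by positivity
    have hA0 : 0 ≤ A := Finset.prod_nonneg fun i _ => by positivity
    have hC0 : 0 ≤ C := Finset.prod_nonneg fun i _ => by positivity
    have hD0 : 0 ≤ D := Finset.prod_nonneg fun i hi => by
      have h1 : i < R := Finset.mem_range.1 hi
      have h2 : (i : ℝ) ≤ ((d * E : ℕ) : ℝ) := by
        have : i ≤ d * E := by omega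
        exact_mod_cast this
      have h3 : (0 : ℝ) ≤ q := by positivity
      linarith
    have hAB : A * B ≤ C * D := by
      have hDr : D = ∏ i ∈ Finset.range R, (((d * E : ℕ) : ℝ) + q - ((R : ℝ) - 1 - i)) := by
        rw [hD, ← Finset.prod_range_reflect]
        refine Finset.prod_congr rfl fun i hi => ?_
        have h1 : i < R := Finset.mem_range.1 hi
        rw [Nat.cast_sub (by omega), Nat.cast_sub (by omega)]
        push_cast; ring
      rw [hDr, hA, hB, hC, ← Finset.prod_mul_distrib, ← Finset.prod_mul_distrib]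
      refine Finset.prod_le_prod (fun i _ => by positivity) fun i hi => ?_
      have := elem d E q i R (by exact_mod_cast hd) (by exact_mod_cast hE) (by exact_mod_cast hq)
        (by positivity) (by exact_mod_cast hR)
      push_cast
      exact this
    have he0 : 0 ≤ e := by positivity
    have h1 : ((E.ascFactorial (q * d) : ℝ) * (d : ℝ) ^ (q * d)) * A * B ≤
        r (q * d + R) * (e * D) * B := by
      calc ((E.ascFactorial (q * d) : ℝ) * (d : ℝ) ^ (q * d)) * A * B
          = ((E.ascFactorial (q * d) : ℝ) * (d : ℝ) ^ (q * d)) * (A * B) := by ring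
        _ ≤ (r (q * d) * e) * (C * D) :=
            mul_le_mul hP hAB (mul_nonneg hA0 hBpos.le) (mul_nonneg (hr0 _) he0)
        _ = (r (q * d) * C) * (e * D) := by ring
        _ ≤ (r (q * d + R) * B) * (e * D) :=
            mul_le_mul_of_nonneg_right hb3 (mul_nonneg he0 hD0)
        _ = _ := by ring
    exact le_of_mul_le_mul_right h1 hBpos
  have hfull : ∀ q : ℕ, (E.ascFactorial ((q + 1) * d) : ℝ) * (d : ℝ) ^ ((q + 1) * d) ≤
      r ((q + 1) * d) * (eMin (d * E) d ((q + 1) * d) : ℝ) := by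
    intro q
    induction q with
    | zero =>
      simp only [zero_add, one_mul]
      rw [hfac d le_rfl]
      exact small_t d E hd hE d le_rfl
    | succ q ih =>
      have := hblock (q + 1) d (by omega) le_rfl ih
      have h2 : (q + 1 + 1) * d = (q + 1) * d + d := by ring
      rw [h2]
      exact this
  by_cases ht : t < d
  · rw [hfac t ht.le]
    exact small_t d E hd hE t ht.le
  · push Not at ht
    have h1 : 1 ≤ t / d := (Nat.one_le_div_iff hd).2 ht
    have h2 : t % d ≤ d := (Nat.mod_lt t hd).le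
    have h3 : t / d * d + t % d = t := by rw [mul_comm]; exact Nat.div_add_mod t d
    obtain ⟨q, hq⟩ := Nat.exists_eq_add_of_le h1
    have h4 := hfull q
    rw [show q + 1 = t / d by omega] at h4
    have h5 := hblock (t / d) (t % d) h1 h2 h4
    rwa [h3] at h5

end Pool.Agent.U696.MO
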