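import Pool.Agent.V11219.MomentOp3

open Matrix MeasureTheory
open scoped BigOperators ComplexConjugate

namespace Pool.Agent.U696.MO

open Pool.Agent.V11219.MomentOp

variable {n : Type} [Fintype n] [DecidableEq n]

instance : SecondCountableTopology (UU n) := by
  have : SecondCountableTopology (Matrix n n ℂ) :=
    inferInstanceAs (SecondCountableTopology (n → n → ℂ))
  exact TopologicalSpace.Subtype.secondCountableTopology _

lemma map_mul_right (g : UU n) : (haarU n).map (· * g) = haarU n := by
  have h1 : ((haarU n).map (· * g)).IsHaarMeasure := Measure.isHaarMeasure_map_mul_right _ g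
  have h2 : IsProbabilityMeasure ((haarU n).map (· * g)) :=
    Measure.isProbabilityMeasure_map (by fun_prop)
  exact Measure.isHaarMeasure_eq_of_isProbabilityMeasure _ _

lemma integral_mul_right' {E : Type*} [NormedAddCommGroup E] [NormedSpace ℝ E]
    (g : UU n) {f : UU n → E} (hf : Continuous f) :
    ∫ V, f (V * g) ∂(haarU n) = ∫ V, f V ∂(haarU n) := by
  conv_rhs => rw [← map_mul_right g]
  rw [integral_map (by fun_prop) hf.aestronglyMeasurable]

lemma integral_mul_left' {E : Type*} [NormedAddCommGroup E] [NormedSpace ℝ E]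
    (g : UU n) (f : UU n → E) :
    ∫ V, f (g * V) ∂(haarU n) = ∫ V, f V ∂(haarU n) :=
  integral_mul_left_eq_self f g

lemma integrable_cont {E : Type*} [NormedAddCommGroup E] {f : UU n → E} (hf : Continuous f) :
    Integrable f (haarU n) :=
  hf.integrable_of_hasCompactSupport (HasCompactSupport.of_compactSpace f)

/-- entries -/
def ent (V : UU n) (a b : n) : ℂ := (V : Matrix n n ℂ) a b

lemma continuous_ent (a b : n) : Continuous fun V : UU n => ent V a b := by
  unfold ent
  exact (continuous_apply_apply a b).comp continuous_subtype_val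

lemma ent_mul (W V : UU n) (a b : n) : ent (W * V) a b = ∑ c, ent W a c * ent V c b := rfl

lemma sum_ent_sq (V : UU n) (c : n) : ∑ a, ‖ent V a c‖ ^ 2 = 1 := by
  have h := congrFun (congrFun (Matrix.mem_unitaryGroup_iff'.1 V.2) c) c
  simp only [Matrix.mul_apply, Matrix.star_apply, Matrix.one_apply_eq] at h
  have h2 : ∀ a, star ((V : Matrix n n ℂ) a c) * (V : Matrix n n ℂ) a c
      = ((‖ent V a c‖ ^ 2 : ℝ) : ℂ) := by
    intro a
    unfold ent
    rw [← Complex.normSq_eq_norm_sq, ← Complex.mul_conj, mul_comm]; rfl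
  simp only [h2] at h
  exact_mod_cast h

/-- multiplication of the row `a` by a phase -/
noncomputable def ph (a : n) (z : ℂ) (hz : z * conj z = 1) : UU n :=
  ⟨Matrix.diagonal fun x => if x = a then z else 1, by
    rw [Matrix.mem_unitaryGroup_iff, Matrix.star_eq_conjTranspose, Matrix.diagonal_conjTranspose,
      Matrix.diagonal_mul_diagonal]
    rw [← Matrix.diagonal_one]
    congr 1
    ext x
    by_cases h : x = a
    · simpa [h] using hz
    · simp [h]⟩

lemma ent_ph_mul (a : n) (z : ℂ) (hz : z * conj z = 1) (V : UU n) (x c : n) :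
    ent (ph a z hz * V) x c = (if x = a then z else 1) * ent V x c := by
  rw [ent_mul]
  simp only [ent, ph, Matrix.diagonal_apply]
  simp

lemma ent_mul_ph (a : n) (z : ℂ) (hz : z * conj z = 1) (V : UU n) (x c : n) :
    ent (V * ph a z hz) x c = (if c = a then z else 1) * ent V x c := by
  rw [ent_mul]
  simp only [ent, ph, Matrix.diagonal_apply]
  simp [mul_comm]

/-- for different exponents there is a phase which detects the difference -/
lemma exists_phase {k l : ℕ} (h : k ≠ l) :
    ∃ z : ℂ, z * conj z = 1 ∧ z ^ k * conj z ^ l ≠ 1 := by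
  have key : ∀ {k l : ℕ}, k < l → ∃ z : ℂ, z * conj z = 1 ∧ z ^ k * conj z ^ l ≠ 1 := by
    intro k l hkl
    refine ⟨Complex.exp (Real.pi / (l - k : ℕ) * Complex.I), ?_, ?_⟩
    · rw [← Complex.exp_conj, ← Complex.exp_add]
      simp
    · have hpos : ((l - k : ℕ) : ℂ) ≠ 0 := by
        exact_mod_cast (by omega : l - k ≠ 0)
      obtain ⟨m, rfl⟩ : ∃ m, l = k + m := ⟨l - k, by omega⟩
      have hm : k + m - k = m := by omega
      rw [hm] at hpos ⊢
      have h1 : Complex.exp (Real.pi / (m : ℕ) * Complex.I) *
          conj (Complex.exp (Real.pi / (m : ℕ) * Complex.I)) = 1 := by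
        rw [← Complex.exp_conj, ← Complex.exp_add]
        simp
      have h2 : conj (Complex.exp (Real.pi / (m : ℕ) * Complex.I)) ^ m = -1 := by
        rw [← map_pow, ← Complex.exp_nat_mul]
        have : (m : ℂ) * (Real.pi / (m : ℕ) * Complex.I) = Real.pi * Complex.I := by
          field_simp
        rw [this, Complex.exp_pi_mul_I]
        simp
      rw [pow_add, ← mul_assoc, ← mul_pow, h1, one_pow, one_mul, h2]
      norm_num
  rcases lt_or_gt_of_ne h with h | h
  · exact key h
  · obtain ⟨z, hz, h2⟩ := key h
    refine ⟨conj z, by rw [Complex.conj_conj, mul_comm]; exact hz, ?_⟩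
    rw [Complex.conj_conj, mul_comm]
    exact h2

/-- rotation of the rows `a` and `b` -/
noncomputable def rotM (a b : n) (c s : ℝ) : Matrix n n ℂ :=
  Matrix.of fun i j =>
    if i = a then (if j = a then (c : ℂ) else if j = b then (s : ℂ) else 0)
    else if i = b then (if j = a then (-s : ℂ) else if j = b then (c : ℂ) else 0)
    else if i = j then 1 else 0

lemma rotM_mem {a b : n} (hab : a ≠ b) {c s : ℝ} (h : c ^ 2 + s ^ 2 = 1) :
    rotM a b c s ∈ Matrix.unitaryGroup n ℂ := by
  have hC : (c : ℂ) ^ 2 + (s : ℂ) ^ 2 = 1 := by exact_mod_cast h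
  rw [Matrix.mem_unitaryGroup_iff]
  have hsum : ∀ (f g : n → ℂ), (∀ x, x ≠ a → x ≠ b → f x * g x = 0) →
      ∑ x, f x * g x = f a * g a + f b * g b := by
    intro f g hfg
    rw [Finset.sum_eq_add (a := a) (b := b) hab]
    · intro x _ hx; exact hfg x hx.1 hx.2
    · simp
    · simp
  ext i j
  simp only [Matrix.mul_apply, Matrix.star_apply, Matrix.one_apply]
  by_cases hia : i = a
  · subst hia
    rw [hsum _ _ (by intro x hx1 hx2; simp [rotM, hx1, hx2])]
    by_cases hja : j = i
    · subst hja
      simp [rotM, hab.symm, ← pow_two, hC]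
    · by_cases hjb : j = b
      · subst hjb
        simp [rotM, hab, hab.symm]; ring
      · simp [rotM, hja, hjb, hab.symm, fun h => hja (Eq.symm h)]
        intro h; exact absurd h.symm hja
  · by_cases hib : i = b
    · subst hib
      rw [hsum _ _ (by intro x hx1 hx2; simp [rotM, hx1, hx2, hia])]
      by_cases hja : j = a
      · subst hja
        simp [rotM, hab, hab.symm]; ring
      · by_cases hjb : j = i
        · subst hjb
          simp [rotM, hab.symm, ← pow_two]; rw [add_comm]; exact hC
        · simp [rotM, hja, hjb, hab.symm]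
          intro h; exact absurd h.symm hjb
    · rw [Finset.sum_eq_single i]
      · by_cases hij : i = j
        · subst hij
          simp [rotM, hia, hib]
        · by_cases hja : j = a
          · simp [rotM, hia, hib, hja]
          · by_cases hjb : j = b
            · simp [rotM, hia, hib, hjb]
            · simp [rotM, hia, hib, hja, hjb, hij]
              intro h; exact hij h.symm
      · intro x _ hx
        simp [rotM, hia, hib]
        intro h; exact absurd h.symm hx
      · simp

/-- rotation as a unitary -/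
noncomputable def rot {a b : n} (hab : a ≠ b) {c s : ℝ} (h : c ^ 2 + s ^ 2 = 1) : UU n :=
  ⟨rotM a b c s, rotM_mem hab h⟩

lemma ent_rot_a {a b : n} (hab : a ≠ b) {c s : ℝ} (h : c ^ 2 + s ^ 2 = 1) (V : UU n) (y : n) :
    ent (rot hab h * V) a y = c * ent V a y + s * ent V b y := by
  rw [ent_mul, Finset.sum_eq_add (a := a) (b := b) hab]
  · simp [ent, rot, rotM, hab.symm]
  · intro x _ hx; simp [ent, rot, rotM, hx.1, hx.2]
  · simp
  · simp

lemma ent_rot_other {a b : n} (hab : a ≠ b) {c s : ℝ} (h : c ^ 2 + s ^ 2 = 1) (V : UU n)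
    (x y : n) (hxa : x ≠ a) (hxb : x ≠ b) :
    ent (rot hab h * V) x y = ent V x y := by
  rw [ent_mul, Finset.sum_eq_single x]
  · simp [ent, rot, rotM, hxa, hxb]
  · intro z _ hz
    simp [ent, rot, rotM, hxa, hxb]
    intro h; exact absurd h.symm hz
  · simp

end Pool.Agent.U696.MO
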