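import Mathlib

open scoped BigOperators

namespace Pool.Agent.U696.MO

/-- the balanced content product -/
def eMin (N d t : ℕ) : ℕ := ∏ s ∈ Finset.range t, (N + s / d - s % d)

/-- balanced rows -/
def bal (d t j : ℕ) : ℕ := t / d + if j < t % d then 1 else 0

lemma bal_succ {d : ℕ} (hd : 0 < d) (t j : ℕ) (hj : j < d) :
    bal d (t + 1) j = bal d t j + if j = t % d then 1 else 0 := by
  have hr : t % d < d := Nat.mod_lt _ hd
  unfold bal
  by_cases h : t % d + 1 = d
  · have h1 : (t + 1) % d = 0 := by
      rw [Nat.add_mod]
      by_cases hd1 : d = 1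
      · subst hd1; simp [Nat.mod_one]
      · rw [Nat.mod_eq_of_lt (show 1 < d by omega), h, Nat.mod_self]
    have h2 : (t + 1) / d = t / d + 1 := by
      have e1 := Nat.div_add_mod t d
      have e2 := Nat.div_add_mod (t + 1) d
      rw [h1] at e2
      have : d * ((t + 1) / d) = d * (t / d + 1) := by rw [mul_add, mul_one]; omega
      exact Nat.eq_of_mul_eq_mul_left hd this
    rw [h1, h2]
    split_ifs <;> omega
  · have h1 : (t + 1) % d = t % d + 1 := by
      rw [Nat.add_mod, Nat.mod_eq_of_lt (show 1 < d by omega), Nat.mod_eq_of_lt (by omega)]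
    have h2 : (t + 1) / d = t / d := by
      have e1 := Nat.div_add_mod t d
      have e2 := Nat.div_add_mod (t + 1) d
      rw [h1] at e2
      have : d * ((t + 1) / d) = d * (t / d) := by omega
      exact Nat.eq_of_mul_eq_mul_left hd this
    rw [h1, h2]
    split_ifs <;> omega

lemma sum_bal {d : ℕ} (hd : 0 < d) (t : ℕ) : ∑ j ∈ Finset.range d, bal d t j = t := by
  induction t with
  | zero => simp [bal]
  | succ t ih =>
    have hr : t % d < d := Nat.mod_lt _ hd
    rw [Finset.sum_congr rfl fun j hj => bal_succ hd t j (Finset.mem_range.1 hj),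
      Finset.sum_add_distrib, ih, Finset.sum_ite_eq' ]
    simp [hr]

lemma eMin_eq {N d : ℕ} (hd : 0 < d) (hN : d ≤ N) (t : ℕ) :
    eMin N d t = ∏ j ∈ Finset.range d, (N - j).ascFactorial (bal d t j) := by
  induction t with
  | zero => simp [eMin, bal]
  | succ t ih =>
    have hr : t % d < d := Nat.mod_lt _ hd
    unfold eMin at ih ⊢
    rw [Finset.prod_range_succ, ih]
    have h1 : ∀ j ∈ Finset.range d, (N - j).ascFactorial (bal d (t + 1) j) =
        (N - j).ascFactorial (bal d t j) * if j = t % d then (N + t / d - t % d) else 1 := by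
      intro j hj
      rw [bal_succ hd t j (Finset.mem_range.1 hj)]
      by_cases h : j = t % d
      · subst h
        simp only [if_true, Nat.ascFactorial_succ]
        have : bal d t (t % d) = t / d := by simp [bal]
        rw [this, mul_comm]
        congr 1
        omega
      · simp [h]
    rw [Finset.prod_congr rfl h1, Finset.prod_mul_distrib, Finset.prod_ite_eq']
    simp [hr]

lemma asc_up (a b K u : ℕ) (h : K ≤ a + b) :
    a.ascFactorial b * K ^ u ≤ a.ascFactorial (b + u) := by
  induction u with
  | zero => simp
  | succ u ih =>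
    rw [← add_assoc, Nat.ascFactorial_succ, pow_succ, ← mul_assoc, mul_comm _ K]
    exact Nat.mul_le_mul (by omega) ih

lemma asc_down (a b K u : ℕ) (h : a + b + u ≤ K + 1) :
    a.ascFactorial (b + u) ≤ a.ascFactorial b * K ^ u := by
  induction u with
  | zero => simp
  | succ u ih =>
    rw [← add_assoc, Nat.ascFactorial_succ, pow_succ, ← mul_assoc, mul_comm _ K]
    exact Nat.mul_le_mul (by omega) (ih (by omega))

theorem eMin_le {N d : ℕ} (hd : 0 < d) (hN : d ≤ N) (t : ℕ) (l : ℕ → ℕ)
    (hl : ∀ i j, i ≤ j → j < d → l j ≤ l i) (hs : ∑ j ∈ Finset.range d, l j = t) :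
    eMin N d t ≤ ∏ j ∈ Finset.range d, (N - j).ascFactorial (l j) := by
  rw [eMin_eq hd hN]
  have hsum : ∑ j ∈ Finset.range d, l j = ∑ j ∈ Finset.range d, bal d t j := by
    rw [hs, sum_bal hd]
  by_cases hex : ∃ j ∈ Finset.range d, bal d t j < l j
  · -- last such row
    have hne : ((Finset.range d).filter fun j => bal d t j < l j).Nonempty := by
      obtain ⟨j, hj, h⟩ := hex
      exact ⟨j, Finset.mem_filter.2 ⟨hj, h⟩⟩
    set jm := ((Finset.range d).filter fun j => bal d t j < l j).max' hne with hjm
    have hjm1 := Finset.max'_mem _ hne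
    rw [← hjm, Finset.mem_filter, Finset.mem_range] at hjm1
    have hjmax : ∀ j, j < d → bal d t j < l j → j ≤ jm := by
      intro j hj h
      exact Finset.le_max' _ j (Finset.mem_filter.2 ⟨Finset.mem_range.2 hj, h⟩)
    set K := N + t / d - jm with hK
    have hKpos : 0 < K := by
      rw [hK]
      exact Nat.sub_pos_of_lt (lt_of_lt_of_le (lt_of_lt_of_le hjm1.1 hN) (Nat.le_add_right _ _))
    have hrow : ∀ j ∈ Finset.range d, (N - j).ascFactorial (bal d t j) * K ^ (l j - bal d t j) ≤
        (N - j).ascFactorial (l j) * K ^ (bal d t j - l j) := by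
      intro j hj
      have hj' : j < d := Finset.mem_range.1 hj
      have hb1 : t / d ≤ bal d t j := by unfold bal; omega
      have hb2 : bal d t j ≤ t / d + 1 := by unfold bal; split_ifs <;> omega
      have hb3 : t / d ≤ bal d t jm := by unfold bal; omega
      rcases lt_trichotomy (bal d t j) (l j) with h | h | h
      · have h1 := hjmax j hj' h
        rw [show bal d t j - l j = 0 by omega, pow_zero, mul_one]
        have := asc_up (N - j) (bal d t j) K (l j - bal d t j) (by omega)
        rwa [show bal d t j + (l j - bal d t j) = l j by omega] at this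
      · rw [h]
      · rw [show l j - bal d t j = 0 by omega, pow_zero, mul_one]
        have hjj : jm < j := by
          by_contra hcon
          have := hl j jm (by omega) hjm1.1
          omega
        have := asc_down (N - j) (l j) K (bal d t j - l j) (by omega)
        rwa [show l j + (bal d t j - l j) = bal d t j by omega] at this
    have hprod := Finset.prod_le_prod' hrow
    rw [Finset.prod_mul_distrib, Finset.prod_mul_distrib, Finset.prod_pow_eq_pow_sum,
      Finset.prod_pow_eq_pow_sum] at hprod
    have hZ : ∑ j ∈ Finset.range d, (l j - bal d t j) =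
        ∑ j ∈ Finset.range d, (bal d t j - l j) := by
      have h1 : ∑ j ∈ Finset.range d, (l j - bal d t j) + ∑ j ∈ Finset.range d, bal d t j =
          ∑ j ∈ Finset.range d, (bal d t j - l j) + ∑ j ∈ Finset.range d, l j := by
        rw [← Finset.sum_add_distrib, ← Finset.sum_add_distrib]
        exact Finset.sum_congr rfl fun j _ => by omega
      omega
    rw [hZ] at hprod
    exact Nat.le_of_mul_le_mul_right hprod (by positivity)
  · push Not at hex
    have heq : ∀ j ∈ Finset.range d, l j = bal d t j :=
      (Finset.sum_eq_sum_iff_of_le hex).1 hsum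
    exact le_of_eq (Finset.prod_congr rfl fun j hj => by rw [heq j hj])

end Pool.Agent.U696.MO
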