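import Pool.Agent.U696.MO.Peel
import Pool.Agent.U696.MO.Part

open Matrix MeasureTheory
open scoped BigOperators ComplexConjugate

namespace Pool.Agent.U696.MO

open Pool.Agent.V11219.MomentOp

set_option linter.unusedSectionVars false

variable {S : Type} [Fintype S] [DecidableEq S]
variable {n : Type} [Fintype n] [DecidableEq n] {d : ℕ}

/-- the part of the form belonging to a column word -/
noncomputable def Pf (col : Fin d → n) (B : (S → n) → ℂ) (i : S → Fin d) (V : UU n) : ℂ :=
  ∑ a, B a * ∏ s, ent V (a s) (col (i s))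

lemma continuous_Pf (col : Fin d → n) (B : (S → n) → ℂ) (i : S → Fin d) :
    Continuous (Pf col B i) :=
  continuous_finsetSum _ fun _ _ => continuous_const.mul
    (continuous_finsetProd _ fun _ _ => continuous_ent _ _)

lemma Pf_bound (hd : 0 < d) (hN : d ≤ Fintype.card n) (col : Fin d → n)
    (hcol : Function.Injective col) (i : S → Fin d) (B : (S → n) → ℂ)
    (hB : ∀ π : Equiv.Perm S, i ∘ π = i → ∀ a, B (a ∘ π) = B a) :
    ∫ V, ‖Pf col B i V‖ ^ 2 ∂(haarU n) ≤
      ((∏ v, ((cnt i v).factorial : ℝ)) / (eMin (Fintype.card n) d (Fintype.card S) : ℝ)) *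
        ∑ a, ‖B a‖ ^ 2 := by
  -- sorting permutation
  set f : Fin d → ℤ := fun v => -(cnt i v : ℤ) with hf
  set σ : Equiv.Perm (Fin d) := Tuple.sort f with hσ
  have hmono : Monotone (f ∘ σ) := Tuple.monotone_sort f
  let w : S → ℕ := fun s => (σ.symm (i s) : ℕ)
  let c : ℕ → n := fun j => if h : j < d then col (σ ⟨j, h⟩) else col ⟨0, hd⟩
  have hw : ∀ s, w s < d := fun s => (σ.symm (i s)).2
  have hcw : ∀ s, c (w s) = col (i s) := by
    intro s
    simp only [c, w, dif_pos (σ.symm (i s)).2, Fin.eta, Equiv.apply_symm_apply]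
  have hc : Set.InjOn c (Set.Iio d) := by
    intro a ha b hb h
    simp only [Set.mem_Iio] at ha hb
    simp only [c, dif_pos ha, dif_pos hb] at h
    have := σ.injective (hcol h)
    simpa using this
  have hcnt : ∀ j (hj : j < d), cnt w j = cnt i (σ ⟨j, hj⟩) := by
    intro j hj
    unfold cnt
    congr 1
    ext s
    simp only [Finset.mem_filter, Finset.mem_univ, true_and, w]
    constructor
    · intro h
      have : σ.symm (i s) = ⟨j, hj⟩ := Fin.ext h
      rw [← this, Equiv.apply_symm_apply]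
    · intro h
      rw [h, Equiv.symm_apply_apply]
  have h1 := peel d S w hw c hc B (by
    intro π hπ a
    refine hB π ?_ a
    funext s
    have h2 : (σ.symm (i (π s)) : ℕ) = σ.symm (i s) := congrFun hπ s
    exact σ.symm.injective (Fin.ext h2))
  have hPf : ∀ V, Pf col B i V = ∑ a, B a * ∏ s, ent V (a s) (c (w s)) := by
    intro V; simp only [hcw]; rfl
  simp only [hPf]
  refine h1.trans (mul_le_mul_of_nonneg_right ?_ (Finset.sum_nonneg fun a _ => by positivity))
  rw [Finset.prod_div_distrib]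
  have h2 : ∏ j ∈ Finset.range d, ((cnt w j).factorial : ℝ) = ∏ v, ((cnt i v).factorial : ℝ) := by
    rw [Finset.prod_range (fun j => ((cnt w j).factorial : ℝ)),
      ← Equiv.prod_comp σ (fun v => ((cnt i v).factorial : ℝ))]
    refine Finset.prod_congr rfl fun j _ => ?_
    rw [hcnt j.1 j.2]
  rw [h2]
  have h3 : eMin (Fintype.card n) d (Fintype.card S) ≤
      ∏ j ∈ Finset.range d, (Fintype.card n - j).ascFactorial (cnt w j) := by
    refine eMin_le hd hN (Fintype.card S) (cnt w) ?_ ?_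
    · intro a b hab hb
      have ha : a < d := lt_of_le_of_lt hab hb
      rw [hcnt a ha, hcnt b hb]
      have := hmono (show (⟨a, ha⟩ : Fin d) ≤ ⟨b, hb⟩ from hab)
      simp only [hf, Function.comp_apply] at this
      omega
    · rw [Finset.sum_range (fun j => cnt w j), ← sum_cnt i, ← Equiv.sum_comp σ (cnt i)]
      refine Finset.sum_congr rfl fun j _ => ?_
      rw [hcnt j.1 j.2]
  have h4 : 0 < eMin (Fintype.card n) d (Fintype.card S) := by
    unfold eMin
    refine Finset.prod_pos fun s _ => ?_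
    have := Nat.mod_lt s hd
    exact Nat.sub_pos_of_lt (lt_of_lt_of_le (lt_of_lt_of_le this hN) (Nat.le_add_right _ _))
  have h5 : (eMin (Fintype.card n) d (Fintype.card S) : ℝ) ≤
      ∏ j ∈ Finset.range d, ((Fintype.card n - j).ascFactorial (cnt w j) : ℝ) := by
    exact_mod_cast h3
  exact div_le_div_of_nonneg_left (by positivity) (by exact_mod_cast h4) h5

lemma sum_nP {κ : Type} [Fintype κ] [DecidableEq κ] (y : S → κ) :
    ∑ z, nP y z = (Fintype.card S).factorial := by
  unfold nP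
  rw [Finset.sum_comm]
  simp [Fintype.card_perm]

lemma Pf_comp (col : Fin d → n) (B : (S → Fin d) → (S → n) → ℂ)
    (hB : ∀ (π : Equiv.Perm S) i a, B (i ∘ π) (a ∘ π) = B i a) (π : Equiv.Perm S)
    (i : S → Fin d) (V : UU n) : Pf col (B (i ∘ π)) (i ∘ π) V = Pf col (B i) i V := by
  unfold Pf
  rw [← Equiv.sum_comp (pre π)]
  refine Finset.sum_congr rfl fun a _ => ?_
  change B (i ∘ π) (a ∘ π) * ∏ s, ent V (a (π s)) (col (i (π s))) = _
  rw [hB, Equiv.prod_comp π (fun s => ent V (a s) (col (i s)))]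

lemma Pf_orth (col : Fin d → n) (hcol : Function.Injective col) (B C : (S → n) → ℂ)
    (i j : S → Fin d) {v : Fin d} (hv : cnt i v ≠ cnt j v) :
    ∫ V, Pf col B i V * conj (Pf col C j V) ∂(haarU n) = 0 := by
  obtain ⟨w, hw, hw2⟩ := exists_phase hv
  have h1 := integral_mul_right' (ph (col v) w hw)
    (f := fun V : UU n => Pf col B i V * conj (Pf col C j V))
    ((continuous_Pf col B i).mul (Complex.continuous_conj.comp (continuous_Pf col C j)))
  have h2 : ∀ (B : (S → n) → ℂ) (y : S → Fin d) (V : UU n),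
      Pf col B y (V * ph (col v) w hw) = w ^ cnt y v * Pf col B y V := by
    intro B y V
    unfold Pf
    rw [Finset.mul_sum]
    refine Finset.sum_congr rfl fun a _ => ?_
    simp only [ent_mul_ph, Finset.prod_mul_distrib]
    have h3 : ∏ s, (if col (y s) = col v then w else 1) = w ^ cnt y v := by
      have h4 : ∀ s, (if col (y s) = col v then w else 1) = (if y s = v then w else 1) := by
        intro s; simp only [hcol.eq_iff]
      simp only [h4]
      rw [prod_eq_cnt y (fun x => if x = v then w else 1), Finset.prod_eq_single v]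
      · simp
      · intro b _ hb; simp [hb]
      · simp
    rw [h3]; ring
  simp only [h2] at h1
  have h3 : ∀ V : UU n, w ^ cnt i v * Pf col B i V * conj (w ^ cnt j v * Pf col C j V) =
      (w ^ cnt i v * conj w ^ cnt j v) * (Pf col B i V * conj (Pf col C j V)) := by
    intro V; rw [map_mul, map_pow]; ring
  simp only [h3] at h1
  rw [integral_const_mul] at h1
  have h4 : (w ^ cnt i v * conj w ^ cnt j v - 1) *
      (∫ V, Pf col B i V * conj (Pf col C j V) ∂(haarU n)) = 0 := by
    rw [sub_mul, one_mul, sub_eq_zero]; exact h1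
  rcases mul_eq_zero.1 h4 with h5 | h5
  · exact absurd (sub_eq_zero.1 h5) hw2
  · exact h5

lemma total_bound (hd : 0 < d) (hN : d ≤ Fintype.card n) (col : Fin d → n)
    (hcol : Function.Injective col) (B : (S → Fin d) → (S → n) → ℂ)
    (hB : ∀ (π : Equiv.Perm S) i a, B (i ∘ π) (a ∘ π) = B i a) :
    ∫ V, ‖∑ i, Pf col (B i) i V‖ ^ 2 ∂(haarU n) ≤
      (((Fintype.card S).factorial : ℝ) / (eMin (Fintype.card n) d (Fintype.card S) : ℝ)) *
        ∑ i, ∑ a, ‖B i a‖ ^ 2 := by
  have h1 := int_normsq_sum (fun i V => Pf col (B i) i V) (fun i => continuous_Pf col (B i) i)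
  have hfac : ∀ i : S → Fin d, (∏ v, ((cnt i v).factorial : ℝ)) ≠ 0 := by
    intro i
    exact Finset.prod_ne_zero_iff.2 fun v _ => by positivity
  have h2 : ∀ i j : S → Fin d, ((∏ v, ((cnt i v).factorial : ℝ) : ℝ) : ℂ) *
      ∫ V, Pf col (B i) i V * conj (Pf col (B j) j V) ∂(haarU n) =
      (nP i j : ℂ) * ((∫ V, ‖Pf col (B i) i V‖ ^ 2 ∂(haarU n) : ℝ) : ℂ) := by
    intro i j
    by_cases h : ∀ v, cnt i v = cnt j v
    · rw [nP_eq i j h]
      obtain ⟨π, rfl⟩ := exists_perm_of_cnt i j h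
      simp only [Pf_comp col B hB]
      push_cast
      congr 1
      rw [← integral_complex_ofReal]
      refine integral_congr_ae (Filter.Eventually.of_forall fun V => ?_)
      simp only
      rw [Complex.mul_conj, Complex.normSq_eq_norm_sq]
    · push Not at h
      obtain ⟨v, hv⟩ := h
      rw [nP_zero i j hv, Pf_orth col hcol _ _ i j hv]
      simp
  have h3 : ∀ i : S → Fin d, ∑ j, ∫ V, Pf col (B i) i V * conj (Pf col (B j) j V) ∂(haarU n) =
      (((((Fintype.card S).factorial : ℝ) / (∏ v, ((cnt i v).factorial : ℝ))) *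
        ∫ V, ‖Pf col (B i) i V‖ ^ 2 ∂(haarU n) : ℝ) : ℂ) := by
    intro i
    have h4 : ((∏ v, ((cnt i v).factorial : ℝ) : ℝ) : ℂ) *
        ∑ j, ∫ V, Pf col (B i) i V * conj (Pf col (B j) j V) ∂(haarU n) =
        ((Fintype.card S).factorial : ℂ) *
          ((∫ V, ‖Pf col (B i) i V‖ ^ 2 ∂(haarU n) : ℝ) : ℂ) := by
      rw [Finset.mul_sum, Finset.sum_congr rfl fun j _ => h2 i j, ← Finset.sum_mul,
        ← sum_nP i]
      push_cast
      rfl
    have h5 : ((∏ v, ((cnt i v).factorial : ℝ) : ℝ) : ℂ) ≠ 0 := by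
      exact_mod_cast hfac i
    rw [Complex.ofReal_mul, Complex.ofReal_div]
    rw [div_mul_eq_mul_div, eq_div_iff h5, mul_comm _ ((∏ v, ((cnt i v).factorial : ℝ) : ℝ) : ℂ),
      h4]
    push_cast
    rfl
  rw [Finset.sum_congr rfl fun i _ => h3 i] at h1
  have h6 : ∫ V, ‖∑ i, Pf col (B i) i V‖ ^ 2 ∂(haarU n) =
      ∑ i, (((Fintype.card S).factorial : ℝ) / (∏ v, ((cnt i v).factorial : ℝ))) *
        ∫ V, ‖Pf col (B i) i V‖ ^ 2 ∂(haarU n) := by
    rw [← Complex.ofReal_sum] at h1
    exact Complex.ofReal_injective h1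
  rw [h6, Finset.mul_sum]
  refine Finset.sum_le_sum fun i _ => ?_
  have h7 := Pf_bound hd hN col hcol i (B i) (by
    intro π hπ a
    have := hB π i a
    rwa [hπ] at this)
  have hpos : 0 < ∏ v, ((cnt i v).factorial : ℝ) := Finset.prod_pos fun v _ => by positivity
  calc (((Fintype.card S).factorial : ℝ) / (∏ v, ((cnt i v).factorial : ℝ))) *
        ∫ V, ‖Pf col (B i) i V‖ ^ 2 ∂(haarU n)
      ≤ (((Fintype.card S).factorial : ℝ) / (∏ v, ((cnt i v).factorial : ℝ))) *
        (((∏ v, ((cnt i v).factorial : ℝ)) / (eMin (Fintype.card n) d (Fintype.card S) : ℝ)) *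
        ∑ a, ‖B i a‖ ^ 2) := mul_le_mul_of_nonneg_left h7 (by positivity)
    _ = _ := by
        rw [← mul_assoc]
        congr 1
        field_simp

/-- symmetrisation -/
noncomputable def symB (B : (S → Fin d) → (S → n) → ℂ) (i : S → Fin d) (a : S → n) : ℂ :=
  ((Fintype.card S).factorial : ℂ)⁻¹ * ∑ π : Equiv.Perm S, B (i ∘ π) (a ∘ π)

lemma symB_comp (B : (S → Fin d) → (S → n) → ℂ) (π : Equiv.Perm S) (i : S → Fin d)
    (a : S → n) : symB B (i ∘ π) (a ∘ π) = symB B i a := by
  unfold symB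
  congr 1
  rw [← Equiv.sum_comp (Equiv.mulLeft π) (fun ρ : Equiv.Perm S => B (i ∘ ρ) (a ∘ ρ))]
  rfl

lemma sum_Pf_symB (col : Fin d → n) (B : (S → Fin d) → (S → n) → ℂ) (V : UU n) :
    ∑ i, Pf col (symB B i) i V = ∑ i, Pf col (B i) i V := by
  have hfac : ((Fintype.card S).factorial : ℂ) ≠ 0 := by
    exact_mod_cast Nat.factorial_ne_zero _
  have h1 : ∑ i, Pf col (symB B i) i V = ((Fintype.card S).factorial : ℂ)⁻¹ *
      ∑ π : Equiv.Perm S, ∑ i : S → Fin d, ∑ a : S → n,
        B (i ∘ π) (a ∘ π) * ∏ s, ent V (a s) (col (i s)) := by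
    unfold Pf symB
    simp only [Finset.mul_sum, Finset.sum_mul]
    conv_rhs => rw [Finset.sum_comm]
    refine Finset.sum_congr rfl fun i _ => ?_
    rw [Finset.sum_comm]
    refine Finset.sum_congr rfl fun π _ => Finset.sum_congr rfl fun a _ => ?_
    ring
  have h2 : ∀ π : Equiv.Perm S, ∑ i : S → Fin d, ∑ a : S → n,
      B (i ∘ π) (a ∘ π) * ∏ s, ent V (a s) (col (i s)) = ∑ i, Pf col (B i) i V := by
    intro π
    conv_rhs => rw [← Equiv.sum_comp (pre π) (fun i => Pf col (B i) i V)]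
    refine Finset.sum_congr rfl fun i _ => ?_
    unfold Pf
    conv_rhs => rw [← Equiv.sum_comp (pre π)]
    refine Finset.sum_congr rfl fun a _ => ?_
    change _ = B (i ∘ π) (a ∘ π) * ∏ s, ent V (a (π s)) (col (i (π s)))
    rw [Equiv.prod_comp π (fun s => ent V (a s) (col (i s)))]
  rw [h1, Finset.sum_congr rfl fun π _ => h2 π, Finset.sum_const, Finset.card_univ,
    Fintype.card_perm, nsmul_eq_mul, ← mul_assoc, inv_mul_cancel₀ hfac, one_mul]

lemma symB_norm (B : (S → Fin d) → (S → n) → ℂ) :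
    (((Fintype.card S).factorial : ℝ) * ∑ i, ∑ a, ‖symB B i a‖ ^ 2 : ℝ) =
      (∑ π : Equiv.Perm S, ∑ i : S → Fin d, ∑ a : S → n, B (i ∘ π) (a ∘ π) * conj (B i a) : ℂ) := by
  have hfac : ((Fintype.card S).factorial : ℂ) ≠ 0 := by
    exact_mod_cast Nat.factorial_ne_zero _
  have h1 : ((∑ i, ∑ a, ‖symB B i a‖ ^ 2 : ℝ) : ℂ) =
      ∑ i, ∑ a, symB B i a * conj (symB B i a) := by
    push_cast
    refine Finset.sum_congr rfl fun i _ => Finset.sum_congr rfl fun a _ => ?_
    rw [Complex.mul_conj, Complex.normSq_eq_norm_sq]; push_cast; rfl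
  have h2 : ∑ i, ∑ a, symB B i a * conj (symB B i a) = ∑ i, ∑ a, symB B i a * conj (B i a) := by
    have h3 : ∀ i a, conj (symB B i a) = ((Fintype.card S).factorial : ℂ)⁻¹ *
        ∑ π : Equiv.Perm S, conj (B (i ∘ π) (a ∘ π)) := by
      intro i a
      unfold symB
      rw [map_mul, map_sum, map_inv₀, map_natCast]
    calc ∑ i, ∑ a, symB B i a * conj (symB B i a)
        = ∑ i, ∑ a, ∑ π : Equiv.Perm S, ((Fintype.card S).factorial : ℂ)⁻¹ *
            (symB B (i ∘ π) (a ∘ π) * conj (B (i ∘ π) (a ∘ π))) := by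
          refine Finset.sum_congr rfl fun i _ => Finset.sum_congr rfl fun a _ => ?_
          rw [h3 i a, Finset.mul_sum, Finset.mul_sum]
          refine Finset.sum_congr rfl fun π _ => ?_
          rw [symB_comp]; ring
      _ = ∑ π : Equiv.Perm S, ∑ i : S → Fin d, ∑ a : S → n, ((Fintype.card S).factorial : ℂ)⁻¹ *
            (symB B (i ∘ π) (a ∘ π) * conj (B (i ∘ π) (a ∘ π))) := by
          conv_rhs => rw [Finset.sum_comm]
          refine Finset.sum_congr rfl fun i _ => ?_
          rw [Finset.sum_comm]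
      _ = ∑ π : Equiv.Perm S, ∑ i : S → Fin d, ∑ a : S → n, ((Fintype.card S).factorial : ℂ)⁻¹ *
            (symB B i a * conj (B i a)) := by
          refine Finset.sum_congr rfl fun π _ => ?_
          rw [← Equiv.sum_comp (pre π) (fun i => ∑ a : S → n, ((Fintype.card S).factorial : ℂ)⁻¹ *
            (symB B i a * conj (B i a)))]
          refine Finset.sum_congr rfl fun i _ => ?_
          rw [← Equiv.sum_comp (pre π) (fun a => ((Fintype.card S).factorial : ℂ)⁻¹ *
            (symB B (pre π i) a * conj (B (pre π i) a)))]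
          rfl
      _ = ∑ i, ∑ a, symB B i a * conj (B i a) := by
          rw [Finset.sum_const, Finset.card_univ, Fintype.card_perm, nsmul_eq_mul]
          simp only [← Finset.mul_sum]
          rw [← mul_assoc, mul_inv_cancel₀ hfac, one_mul]
  rw [Complex.ofReal_mul, h1, h2]
  unfold symB
  push_cast
  simp only [Finset.sum_mul, Finset.mul_sum]
  conv_rhs => rw [Finset.sum_comm]
  refine Finset.sum_congr rfl fun i _ => ?_
  rw [Finset.sum_comm]
  refine Finset.sum_congr rfl fun π _ => Finset.sum_congr rfl fun a _ => ?_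
  field_simp

/-- the bound for arbitrary coefficients -/
lemma form_bound (hd : 0 < d) (hN : d ≤ Fintype.card n) (col : Fin d → n)
    (hcol : Function.Injective col) (B : (S → Fin d) → (S → n) → ℂ) :
    ∫ V, ‖∑ i, Pf col (B i) i V‖ ^ 2 ∂(haarU n) ≤
      (1 / (eMin (Fintype.card n) d (Fintype.card S) : ℝ)) *
        ∑ π : Equiv.Perm S, ‖∑ i : S → Fin d, ∑ a : S → n, B (i ∘ π) (a ∘ π) * conj (B i a)‖ := by
  have h1 := total_bound hd hN col hcol (symB B) (symB_comp B)
  simp only [sum_Pf_symB] at h1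
  refine h1.trans ?_
  have h2 := symB_norm B
  have h3 : ((Fintype.card S).factorial : ℝ) * ∑ i, ∑ a, ‖symB B i a‖ ^ 2 ≤
      ∑ π : Equiv.Perm S, ‖∑ i : S → Fin d, ∑ a : S → n, B (i ∘ π) (a ∘ π) * conj (B i a)‖ := by
    have h4 : ((Fintype.card S).factorial : ℝ) * ∑ i, ∑ a, ‖symB B i a‖ ^ 2 ≤
        ‖(((Fintype.card S).factorial : ℝ) * ∑ i, ∑ a, ‖symB B i a‖ ^ 2 : ℝ)‖ :=
      le_abs_self _
    have h5 : ‖(((Fintype.card S).factorial : ℝ) * ∑ i, ∑ a, ‖symB B i a‖ ^ 2 : ℝ)‖ =
        ‖((((Fintype.card S).factorial : ℝ) * ∑ i, ∑ a, ‖symB B i a‖ ^ 2 : ℝ) : ℂ)‖ := by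
      rw [Complex.norm_real]
    rw [h5, h2] at h4
    exact h4.trans (norm_sum_le _ _)
  have he : (0 : ℝ) ≤ 1 / (eMin (Fintype.card n) d (Fintype.card S) : ℝ) := by positivity
  calc (((Fintype.card S).factorial : ℝ) / (eMin (Fintype.card n) d (Fintype.card S) : ℝ)) *
        ∑ i, ∑ a, ‖symB B i a‖ ^ 2
      = (1 / (eMin (Fintype.card n) d (Fintype.card S) : ℝ)) *
        (((Fintype.card S).factorial : ℝ) * ∑ i, ∑ a, ‖symB B i a‖ ^ 2) := by ring
    _ ≤ _ := mul_le_mul_of_nonneg_left h3 he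

/-- number of pairs (word, permutation fixing it) -/
lemma sum_nP_self (κ : Type) [Fintype κ] [DecidableEq κ] [Nonempty κ] (S : Type) [Fintype S]
    [DecidableEq S] : ∑ x : S → κ, nP x x = (Fintype.card κ).ascFactorial (Fintype.card S) := by
  obtain ⟨c⟩ := ‹Nonempty κ›
  have h1 : ∀ V : UU κ, ∑ x : S → κ, (∏ s, ent V (x s) c) * conj (∏ s, ent V (x s) c) = 1 := by
    intro V
    have h2 : ∀ x : S → κ, (∏ s, ent V (x s) c) * conj (∏ s, ent V (x s) c) =
        ∏ s, (((‖ent V (x s) c‖ ^ 2 : ℝ)) : ℂ) := by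
      intro x
      rw [map_prod, ← Finset.prod_mul_distrib]
      refine Finset.prod_congr rfl fun s _ => ?_
      rw [Complex.mul_conj, Complex.normSq_eq_norm_sq]
    simp only [h2]
    have h3 := Finset.prod_univ_sum (fun _ : S => (Finset.univ : Finset κ))
      (fun _ v => ((‖ent V v c‖ ^ 2 : ℝ) : ℂ))
    rw [Fintype.piFinset_univ] at h3
    rw [← h3]
    refine Finset.prod_eq_one fun s _ => ?_
    rw [← Complex.ofReal_sum, sum_ent_sq]; simp
  have h2 : ∫ V, ∑ x : S → κ, (∏ s, ent V (x s) c) * conj (∏ s, ent V (x s) c) ∂(haarU κ) =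
      (1 : ℂ) := by
    simp only [h1]; simp
  rw [integral_finsetSum] at h2
  · simp only [sm c] at h2
    rw [← Finset.sum_div] at h2
    have hne : ((Fintype.card κ).ascFactorial (Fintype.card S) : ℂ) ≠ 0 := by
      intro h0
      rw [h0, div_zero] at h2
      exact one_ne_zero h2.symm
    rw [div_eq_one_iff_eq hne] at h2
    exact_mod_cast h2
  · intro x _
    exact integrable_cont ((continuous_prod_ent c x).mul
      (Complex.continuous_conj.comp (continuous_prod_ent c x)))

end Pool.Agent.U696.MO
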