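import Pool.Agent.V11219.MomentOp3

open Matrix MeasureTheory
open scoped BigOperators ComplexConjugate ComplexOrder MatrixOrder

namespace Pool.Agent.U696.MO

open Pool.Agent.V11219.MomentOp

variable {d t : ℕ}

/-- index words -/
abbrev II (d t : ℕ) := Fin t → Fin d

/-- the Choi matrix -/
noncomputable def choi (A : MatT d t →ₗ[ℂ] MatT d t) :
    Matrix (II d t × II d t) (II d t × II d t) ℂ :=
  Matrix.of fun p q => A (Matrix.single p.1 q.1 1) p.2 q.2

/-- trace preservation on matrix units -/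
def TP (A : MatT d t →ₗ[ℂ] MatT d t) : Prop :=
  ∀ i j, ∑ k, A (Matrix.single i j 1) k k = if i = j then 1 else 0

lemma apply_eq_sum (A : MatT d t →ₗ[ℂ] MatT d t) (X : MatT d t) (k l : II d t) :
    A X k l = ∑ r, ∑ s, X r s * A (Matrix.single r s 1) k l := by
  conv_lhs => rw [Matrix.matrix_eq_sum_single X]
  simp only [map_sum, Matrix.sum_apply]
  refine Finset.sum_congr rfl fun r _ => Finset.sum_congr rfl fun s _ => ?_
  have : Matrix.single r s (X r s) = (X r s) • Matrix.single r s (1 : ℂ) := by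
    simp [Matrix.smul_single]
  rw [this, map_smul]; rfl

lemma choi_mul (A B : MatT d t →ₗ[ℂ] MatT d t) (p q : II d t × II d t) :
    choi (A * B) p q = ∑ r, ∑ s, choi B (p.1, r) (q.1, s) * choi A (r, p.2) (s, q.2) := by
  simp only [choi, Matrix.of_apply, Module.End.mul_apply]
  rw [apply_eq_sum]

/-- the Kraus-type matrices -/
noncomputable def Rm (b : Matrix (II d t × II d t) (II d t × II d t) ℂ)
    (m : II d t × II d t) : Matrix (II d t × II d t) (II d t × II d t) ℂ :=
  Matrix.of fun p q => if p.2 = q.2 then b m (q.1, p.1) else 0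

lemma Rm_entry (b C : Matrix (II d t × II d t) (II d t × II d t) ℂ) (m p q : II d t × II d t) :
    ((Rm b m)ᴴ * C * Rm b m) p q =
      ∑ r, ∑ s, star (b m (p.1, r)) * b m (q.1, s) * C (r, p.2) (s, q.2) := by
  have h1 : ∀ x, ((Rm b m)ᴴ * C) p x = ∑ r, star (b m (p.1, r)) * C (r, p.2) x := by
    intro x
    rw [Matrix.mul_apply, Fintype.sum_prod_type]
    refine Finset.sum_congr rfl fun r _ => ?_
    rw [Finset.sum_eq_single p.2]
    · simp [Rm]
    · intro k _ hk
      simp [Rm, hk]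
    · simp
  rw [Matrix.mul_apply, Fintype.sum_prod_type]
  have h2 : ∀ s, ∑ l, ((Rm b m)ᴴ * C) p (s, l) * Rm b m (s, l) q =
      ∑ r, star (b m (p.1, r)) * b m (q.1, s) * C (r, p.2) (s, q.2) := by
    intro s
    rw [Finset.sum_eq_single q.2]
    · rw [h1, Finset.sum_mul]
      refine Finset.sum_congr rfl fun r _ => ?_
      simp only [Rm, Matrix.of_apply, if_true]
      ring
    · intro l _ hl
      simp [Rm, hl]
    · simp
  simp only [h2]
  rw [Finset.sum_comm]

lemma star_mul_entry (b : Matrix (II d t × II d t) (II d t × II d t) ℂ)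
    (p q : II d t × II d t) : (star b * b) p q = ∑ m, star (b m p) * b m q := by
  rw [Matrix.mul_apply]; rfl

lemma choi_mul_eq (A B : MatT d t →ₗ[ℂ] MatT d t)
    (b : Matrix (II d t × II d t) (II d t × II d t) ℂ) (hb : choi B = star b * b) :
    choi (A * B) = ∑ m, (Rm b m)ᴴ * choi A * Rm b m := by
  ext p q
  rw [choi_mul, hb, Matrix.sum_apply]
  simp only [Rm_entry, star_mul_entry, Finset.sum_mul]
  conv_rhs => rw [Finset.sum_comm]
  refine Finset.sum_congr rfl fun r _ => ?_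
  conv_rhs => rw [Finset.sum_comm]

lemma sum_Rm (B : MatT d t →ₗ[ℂ] MatT d t) (hB : TP B)
    (b : Matrix (II d t × II d t) (II d t × II d t) ℂ) (hb : choi B = star b * b) :
    ∑ m, (Rm b m)ᴴ * 1 * Rm b m = 1 := by
  ext p q
  rw [Matrix.sum_apply]
  simp only [Rm_entry, Matrix.one_apply, Prod.mk.injEq]
  have h1 : ∀ m : II d t × II d t, ∑ r, ∑ s, star (b m (p.1, r)) * b m (q.1, s) *
      (if r = s ∧ p.2 = q.2 then (1 : ℂ) else 0) =
      if p.2 = q.2 then ∑ r, star (b m (p.1, r)) * b m (q.1, r) else 0 := by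
    intro m
    by_cases h : p.2 = q.2
    · simp [h]
    · simp [h]
  simp only [h1]
  by_cases h : p.2 = q.2
  · simp only [h, if_true]
    rw [Finset.sum_comm]
    have h2 := hB p.1 q.1
    have h3 : ∀ r, B (Matrix.single p.1 q.1 1) r r = ∑ m, star (b m (p.1, r)) * b m (q.1, r) := by
      intro r
      rw [← star_mul_entry, ← hb]; rfl
    simp only [h3] at h2
    rw [h2]
    by_cases h4 : p.1 = q.1
    · have : p = q := Prod.ext h4 h
      simp [this]
    · have : p ≠ q := fun h5 => h4 (by rw [h5])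
      simp [h4, this]
  · have : p ≠ q := fun h5 => h (by rw [h5])
    simp [h, this]

lemma TP_mul {A B : MatT d t →ₗ[ℂ] MatT d t} (hA : TP A) (hB : TP B) : TP (A * B) := by
  intro i j
  have h1 : ∀ k, (A * B) (Matrix.single i j 1) k k =
      ∑ r, ∑ s, B (Matrix.single i j 1) r s * A (Matrix.single r s 1) k k := by
    intro k
    rw [Module.End.mul_apply, apply_eq_sum]
  simp only [h1]
  rw [Finset.sum_comm]
  have h2 : ∀ r, ∑ k, ∑ s, B (Matrix.single i j 1) r s * A (Matrix.single r s 1) k k =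
      B (Matrix.single i j 1) r r := by
    intro r
    rw [Finset.sum_comm]
    simp only [← Finset.mul_sum, hA r]
    simp
  simp only [h2]
  exact hB i j

/-- bounded positive Choi matrix -/
def CB (κ : ℝ) (A : MatT d t →ₗ[ℂ] MatT d t) : Prop :=
  (choi A).PosSemidef ∧ ((κ : ℂ) • (1 : Matrix (II d t × II d t) (II d t × II d t) ℂ) -
    choi A).PosSemidef

lemma CB_mul {κ : ℝ} {A B : MatT d t →ₗ[ℂ] MatT d t} (hA : CB κ A) (hB : (choi B).PosSemidef)
    (hB2 : TP B) : CB κ (A * B) := by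
  obtain ⟨b, hb⟩ := CStarAlgebra.nonneg_iff_eq_star_mul_self.mp hB.nonneg
  constructor
  · rw [choi_mul_eq A B b hb]
    exact posSemidef_sum _ fun m _ => hA.1.conjTranspose_mul_mul_same (Rm b m)
  · have h1 : (κ : ℂ) • (1 : Matrix (II d t × II d t) (II d t × II d t) ℂ) - choi (A * B) =
        ∑ m, (Rm b m)ᴴ * ((κ : ℂ) • (1 : Matrix (II d t × II d t) (II d t × II d t) ℂ) -
          choi A) * Rm b m := by
      rw [choi_mul_eq A B b hb]
      simp only [Matrix.mul_sub, Matrix.sub_mul, Finset.sum_sub_distrib, Matrix.mul_smul,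
        Matrix.smul_mul, ← Finset.smul_sum]
      rw [sum_Rm B hB2 b hb]
    rw [h1]
    exact posSemidef_sum _ fun m _ => hA.2.conjTranspose_mul_mul_same (Rm b m)

lemma CB_pow {κ : ℝ} {A : MatT d t →ₗ[ℂ] MatT d t} (hA : CB κ A) (hT : TP A) (k : ℕ) :
    CB κ (A ^ (k + 1)) ∧ TP (A ^ (k + 1)) := by
  induction k with
  | zero => simpa using ⟨hA, hT⟩
  | succ k ih =>
    rw [pow_succ' A (k + 1)]
    exact ⟨CB_mul hA ih.1.1 ih.2, TP_mul hT ih.2⟩

lemma hsNormSq_eq (A : MatT d t →ₗ[ℂ] MatT d t) :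
    hsNormSq A = ∑ p, ∑ q, ‖choi A p q‖ ^ 2 := by
  unfold hsNormSq
  simp only [choi, Matrix.of_apply, Fintype.sum_prod_type]
  refine Finset.sum_congr rfl fun i _ => ?_
  rw [Finset.sum_comm]

lemma trace_choi {A : MatT d t →ₗ[ℂ] MatT d t} (hT : TP A) :
    (choi A).trace = ((d : ℂ) ^ t) := by
  simp only [Matrix.trace, Matrix.diag_apply, choi, Matrix.of_apply, Fintype.sum_prod_type]
  simp only [hT _ _]
  simp

theorem hs_le {κ : ℝ} {A : MatT d t →ₗ[ℂ] MatT d t} (hA : CB κ A) (hT : TP A) :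
    hsNormSq A ≤ κ * (d : ℝ) ^ t := by
  obtain ⟨b, hb⟩ := CStarAlgebra.nonneg_iff_eq_star_mul_self.mp hA.1.nonneg
  have h1 : (hsNormSq A : ℂ) = (choi A * choi A).trace := by
    rw [hsNormSq_eq, Matrix.trace]
    push_cast
    refine Finset.sum_congr rfl fun p _ => ?_
    rw [Matrix.diag_apply, Matrix.mul_apply]
    refine Finset.sum_congr rfl fun q _ => ?_
    have h2 : choi A q p = star (choi A p q) := (hA.1.isHermitian.apply q p).symm
    rw [h2]
    change _ = choi A p q * conj (choi A p q)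
    rw [Complex.mul_conj, Complex.normSq_eq_norm_sq]; push_cast; rfl
  have h2 : (0 : ℂ) ≤ (choi A * ((κ : ℂ) • (1 : Matrix (II d t × II d t) (II d t × II d t) ℂ) -
      choi A)).trace := by
    conv_rhs => rw [hb]
    rw [Matrix.mul_assoc, Matrix.trace_mul_comm, ← hb]
    exact (hA.2.mul_mul_conjTranspose_same b).trace_nonneg
  rw [Matrix.mul_sub, Matrix.trace_sub, ← h1, Matrix.mul_smul, Matrix.mul_one,
    Matrix.trace_smul, trace_choi hT, smul_eq_mul] at h2
  have h3 : (0 : ℂ) ≤ ((κ * (d : ℝ) ^ t - hsNormSq A : ℝ) : ℂ) := by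
    push_cast; exact h2
  have h4 := Complex.zero_le_real.1 h3
  linarith

theorem hs_ge (hd : 0 < d) {A : MatT d t →ₗ[ℂ] MatT d t} (hT : TP A) : 1 ≤ hsNormSq A := by
  have h0 : ‖∑ i : II d t, ∑ k : II d t, A (Matrix.single i i 1) k k‖ = (d : ℝ) ^ t := by
    simp only [hT _ _]
    simp
  have h1 : (d : ℝ) ^ t ≤ ∑ p : II d t × II d t, ‖A (Matrix.single p.1 p.1 1) p.2 p.2‖ := by
    rw [← h0, Fintype.sum_prod_type]
    refine (norm_sum_le _ _).trans (Finset.sum_le_sum fun i _ => norm_sum_le _ _)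
  have h2 := sq_sum_le_card_mul_sum_sq (s := (Finset.univ : Finset (II d t × II d t)))
    (f := fun p => ‖A (Matrix.single p.1 p.1 1) p.2 p.2‖)
  have h3 : ((Finset.univ : Finset (II d t × II d t)).card : ℝ) = ((d : ℝ) ^ t) ^ 2 := by
    simp [pow_two]
  rw [h3] at h2
  have hpos : (0 : ℝ) < (d : ℝ) ^ t := by positivity
  have h4 : ((d : ℝ) ^ t) ^ 2 ≤ ((d : ℝ) ^ t) ^ 2 *
      ∑ p : II d t × II d t, ‖A (Matrix.single p.1 p.1 1) p.2 p.2‖ ^ 2 :=
    (pow_le_pow_left₀ hpos.le h1 2).trans h2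
  have h5 : 1 ≤ ∑ p : II d t × II d t, ‖A (Matrix.single p.1 p.1 1) p.2 p.2‖ ^ 2 := by
    by_contra hcon
    push Not at hcon
    have : ((d : ℝ) ^ t) ^ 2 * ∑ p : II d t × II d t, ‖A (Matrix.single p.1 p.1 1) p.2 p.2‖ ^ 2 <
        ((d : ℝ) ^ t) ^ 2 * 1 := mul_lt_mul_of_pos_left hcon (by positivity)
    linarith
  refine h5.trans ?_
  rw [hsNormSq_eq]
  refine Finset.sum_le_sum fun p _ => ?_
  exact Finset.single_le_sum (f := fun q => ‖choi A p q‖ ^ 2) (fun q _ => by positivity)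
    (Finset.mem_univ p)

end Pool.Agent.U696.MO
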