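import Pool.Agent.U696.MO.Bound
import Pool.Agent.U696.MO.Choi

open Matrix MeasureTheory
open scoped BigOperators ComplexConjugate ComplexOrder

namespace Pool.Agent.U696.MO

open Pool.Agent.V11219.MomentOp

set_option linter.unusedSectionVars false

variable {d dE t : ℕ}

lemma momentOp_single {Ω : Type*} [MeasurableSpace Ω] (μ : Measure Ω)
    (Φ : Ω → (Mat d →ₗ[ℂ] Mat d)) (i j k l : Fin t → Fin d) :
    momentOp μ t Φ (Matrix.single i j 1) k l =
      ∫ ω, tensorPow t (Φ ω) (Matrix.single i j 1) k l ∂μ := by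
  simp only [momentOp, LinearMap.coe_mk, AddHom.coe_mk, Matrix.of_apply]
  rw [Finset.sum_eq_single i, Finset.sum_eq_single j]
  · simp
  · intro j' _ hj'
    simp [hj'.symm]
  · simp
  · intro i' _ hi'
    simp [hi'.symm]
  · simp

/-- the moment operator of the Haar channel ensemble -/
noncomputable def Tc (d dE t : ℕ) (ψ : Fin dE → ℂ) : MatT d t →ₗ[ℂ] MatT d t :=
  momentOp (haarU (Fin d × Fin dE)) t
    (fun V => dilated (d := d) ψ (V : Matrix (Fin d × Fin dE) (Fin d × Fin dE) ℂ))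

/-- the monomials -/
noncomputable def Ym (ψ : Fin dE → ℂ) (x : Fin t → Fin dE) (p : II d t × II d t)
    (V : UU (Fin d × Fin dE)) : ℂ := ∏ s, cv (V11219.MomentOp.vec ψ (p.1 s)) (p.2 s, x s) V

lemma continuous_Ym (ψ : Fin dE → ℂ) (x : Fin t → Fin dE) (p : II d t × II d t) :
    Continuous (Ym ψ x p) :=
  continuous_finsetProd _ fun _ _ => continuous_cv _ _

lemma Tc_single (ψ : Fin dE → ℂ) (i j k l : II d t) :
    Tc d dE t ψ (Matrix.single i j 1) k l =
      ∫ V, ∏ s, ∑ x : Fin dE, cv (V11219.MomentOp.vec ψ (i s)) (k s, x) V * conj (cv (V11219.MomentOp.vec ψ (j s)) (l s, x) V)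
        ∂(haarU (Fin d × Fin dE)) := by
  unfold Tc
  rw [momentOp_single]
  refine integral_congr_ae (Filter.Eventually.of_forall fun V => ?_)
  simp only
  rw [tensorPow_single]
  refine Finset.prod_congr rfl fun s _ => ?_
  rw [dilated_single]

lemma choi_Tc (ψ : Fin dE → ℂ) (p q : II d t × II d t) :
    choi (Tc d dE t ψ) p q =
      ∑ x : Fin t → Fin dE, ∫ V, Ym ψ x p V * conj (Ym ψ x q V) ∂(haarU (Fin d × Fin dE)) := by
  simp only [choi, Matrix.of_apply]
  rw [Tc_single, ← integral_finsetSum]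
  · refine integral_congr_ae (Filter.Eventually.of_forall fun V => ?_)
    simp only
    rw [Finset.prod_univ_sum, Fintype.piFinset_univ]
    refine Finset.sum_congr rfl fun x _ => ?_
    rw [Finset.prod_mul_distrib, Ym, Ym, map_prod]
  · intro x _
    exact integrable_cont ((continuous_Ym ψ x p).mul
      (Complex.continuous_conj.comp (continuous_Ym ψ x q)))

lemma TP_Tc (ψ : Fin dE → ℂ) (hψ : ∑ x, ‖ψ x‖ ^ 2 = 1) : TP (Tc d dE t ψ) := by
  intro i j
  simp only [Tc_single]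
  rw [← integral_finsetSum]
  · have h1 : ∀ V : UU (Fin d × Fin dE), ∑ k : II d t, ∏ s, ∑ x : Fin dE,
        cv (V11219.MomentOp.vec ψ (i s)) (k s, x) V * conj (cv (V11219.MomentOp.vec ψ (j s)) (k s, x) V) =
        if i = j then 1 else 0 := by
      intro V
      have h2 := Finset.prod_univ_sum (fun _ : Fin t => (Finset.univ : Finset (Fin d)))
        (fun s k => ∑ x : Fin dE, cv (V11219.MomentOp.vec ψ (i s)) (k, x) V * conj (cv (V11219.MomentOp.vec ψ (j s)) (k, x) V))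
      rw [Fintype.piFinset_univ] at h2
      rw [← h2]
      have h3 : ∀ s, ∑ k, ∑ x : Fin dE, cv (V11219.MomentOp.vec ψ (i s)) (k, x) V *
          conj (cv (V11219.MomentOp.vec ψ (j s)) (k, x) V) = if i s = j s then 1 else 0 := by
        intro s
        rw [← ip_vec ψ hψ, ← ip_cv (V11219.MomentOp.vec ψ (i s)) (V11219.MomentOp.vec ψ (j s)) V, Fintype.sum_prod_type]
      simp only [h3]
      by_cases hij : i = j
      · simp [hij]
      · obtain ⟨s, hs⟩ := Function.ne_iff.1 hij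
        rw [if_neg hij]
        exact Finset.prod_eq_zero (Finset.mem_univ s) (by simp [hs])
    simp only [h1]
    simp
  · intro k _
    exact integrable_cont (continuous_finsetProd _ fun s _ => continuous_finsetSum _ fun x _ =>
      (continuous_cv _ _).mul (Complex.continuous_conj.comp (continuous_cv _ _)))

/-- a unitary whose columns `(i, 0)` are the vectors `e_i ⊗ ψ` -/
lemma exists_W (hE : 0 < dE) (ψ : Fin dE → ℂ) (hψ : ∑ x, ‖ψ x‖ ^ 2 = 1) :
    ∃ W : UU (Fin d × Fin dE), ∀ (i : Fin d) (a : Fin d × Fin dE),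
      ent W a (i, ⟨0, hE⟩) = V11219.MomentOp.vec ψ i a := by
  let v : Fin d × Fin dE → EuclideanSpace ℂ (Fin d × Fin dE) := fun p =>
    WithLp.toLp 2 (V11219.MomentOp.vec ψ p.1)
  let s : Set (Fin d × Fin dE) := {p | p.2 = ⟨0, hE⟩}
  have hv : Orthonormal ℂ (s.domRestrict v) := by
    rw [orthonormal_iff_ite]
    intro p q
    have h1 : inner ℂ (s.domRestrict v p) (s.domRestrict v q) = ip (V11219.MomentOp.vec ψ q.1.1) (V11219.MomentOp.vec ψ p.1.1) := by
      simp only [PiLp.inner_apply, RCLike.inner_apply, ip]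
      rfl
    rw [h1, ip_vec ψ hψ]
    by_cases h : p = q
    · simp [h]
    · have h2 : ¬ q.1.1 = p.1.1 := by
        intro h3
        apply h
        apply Subtype.ext
        apply Prod.ext h3.symm
        rw [show p.1.2 = ⟨0, hE⟩ from p.2, show q.1.2 = ⟨0, hE⟩ from q.2]
      simp [h, h2]
  obtain ⟨b, hb⟩ := hv.exists_orthonormalBasis_extension_of_card_eq (ι := Fin d × Fin dE)
    (by simp)
  refine ⟨⟨Matrix.of fun x p => b p x, ?_⟩, ?_⟩
  · rw [Matrix.mem_unitaryGroup_iff']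
    ext p q
    have h1 := (orthonormal_iff_ite.1 b.orthonormal) p q
    simp only [PiLp.inner_apply, RCLike.inner_apply] at h1
    simp only [Matrix.mul_apply, Matrix.star_apply, Matrix.of_apply, Matrix.one_apply]
    rw [← h1]
    refine Finset.sum_congr rfl fun x _ => ?_
    rw [mul_comm]; rfl
  · intro i a
    have h1 := hb (i, ⟨0, hE⟩) rfl
    simp only [ent, Matrix.of_apply]
    rw [h1]

/-- coefficient functions -/
noncomputable def Bx (y : II d t × II d t → ℂ) (x : Fin t → Fin dE) (i : Fin t → Fin d)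
    (a : Fin t → Fin d × Fin dE) : ℂ :=
  if (fun s => (a s).2) = x then conj (y (i, fun s => (a s).1)) else 0

lemma sum_arrow {E : Type*} [AddCommMonoid E] (g : (Fin t → Fin d × Fin dE) → E) :
    ∑ a, g a = ∑ k : Fin t → Fin d, ∑ x : Fin t → Fin dE, g (fun s => (k s, x s)) := by
  rw [← Fintype.sum_prod_type' (f := fun (k : Fin t → Fin d) (x : Fin t → Fin dE) =>
    g (fun s => (k s, x s)))]
  exact Fintype.sum_equiv (Equiv.arrowProdEquivProdArrow (Fin t) (fun _ => Fin d)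
    (fun _ => Fin dE)) _ _ fun a => rfl

lemma form_eq (hE : 0 < dE) (ψ : Fin dE → ℂ) (hψ : ∑ x, ‖ψ x‖ ^ 2 = 1)
    (y : II d t × II d t → ℂ) (x : Fin t → Fin dE) :
    ∫ V, ‖∑ p, conj (y p) * Ym ψ x p V‖ ^ 2 ∂(haarU (Fin d × Fin dE)) =
      ∫ V, ‖∑ i, Pf (fun i : Fin d => ((i, ⟨0, hE⟩) : Fin d × Fin dE)) (Bx y x i) i V‖ ^ 2
        ∂(haarU (Fin d × Fin dE)) := by
  obtain ⟨W, hW⟩ := exists_W (d := d) hE ψ hψ
  rw [← integral_mul_right' W (f := fun V : UU (Fin d × Fin dE) =>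
    ‖∑ i, Pf (fun i : Fin d => ((i, ⟨0, hE⟩) : Fin d × Fin dE)) (Bx y x i) i V‖ ^ 2)
    ((continuous_finsetSum _ fun i _ => continuous_Pf _ _ _).norm.pow 2)]
  refine integral_congr_ae (Filter.Eventually.of_forall fun V => ?_)
  simp only
  congr 2
  rw [Fintype.sum_prod_type]
  refine Finset.sum_congr rfl fun i _ => ?_
  unfold Pf
  rw [sum_arrow]
  refine Finset.sum_congr rfl fun k _ => ?_
  rw [Finset.sum_eq_single x]
  · simp only [Bx, if_true]
    congr 1
    unfold Ym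
    refine Finset.prod_congr rfl fun s _ => ?_
    rw [ent_mul]
    simp only [hW]
    rfl
  · intro x' _ hx'
    have : ¬ (fun s => x' s) = x := hx'
    simp [Bx, this]
  · simp

lemma perm_term (y : II d t × II d t → ℂ) (x : Fin t → Fin dE) (π : Equiv.Perm (Fin t)) :
    ‖∑ i : Fin t → Fin d, ∑ a : Fin t → Fin d × Fin dE,
      Bx y x (i ∘ π) (a ∘ π) * conj (Bx y x i a)‖ ≤
      (if x ∘ π = x then 1 else 0) * ∑ p, ‖y p‖ ^ 2 := by
  have h1 : ∀ i : Fin t → Fin d, ∑ a : Fin t → Fin d × Fin dE,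
      Bx y x (i ∘ π) (a ∘ π) * conj (Bx y x i a) =
      ∑ k : Fin t → Fin d, (if x ∘ π = x then 1 else 0) *
        (conj (y (i ∘ π, k ∘ π)) * y (i, k)) := by
    intro i
    rw [sum_arrow]
    refine Finset.sum_congr rfl fun k _ => ?_
    rw [Finset.sum_eq_single x]
    · by_cases h : x ∘ π = x
      · have h' : (fun s => x (π s)) = x := h
        simp [Bx, h, h', Function.comp_def]
      · have h' : ¬ (fun s => x (π s)) = x := h
        simp [Bx, h, h', Function.comp_def]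
    · intro x' _ hx'
      have : ¬ (fun s => x' s) = x := hx'
      simp [Bx, this]
    · simp
  simp only [h1]
  by_cases h : x ∘ π = x
  · simp only [h, if_true, one_mul]
    have h2 : ∀ i k : Fin t → Fin d, ‖conj (y (i ∘ π, k ∘ π)) * y (i, k)‖ ≤
        (1 / 2 : ℝ) * ‖y (i ∘ π, k ∘ π)‖ ^ 2 + (1 / 2 : ℝ) * ‖y (i, k)‖ ^ 2 := by
      intro i k
      rw [norm_mul, Complex.norm_conj]
      nlinarith [sq_nonneg (‖y (i ∘ π, k ∘ π)‖ - ‖y (i, k)‖)]
    have h3 : ∑ i : Fin t → Fin d, ∑ k : Fin t → Fin d, ‖y (i ∘ π, k ∘ π)‖ ^ 2 =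
        ∑ i : Fin t → Fin d, ∑ k : Fin t → Fin d, ‖y (i, k)‖ ^ 2 := by
      rw [← Equiv.sum_comp (pre π) (fun i => ∑ k : Fin t → Fin d, ‖y (i, k)‖ ^ 2)]
      refine Finset.sum_congr rfl fun i _ => ?_
      rw [← Equiv.sum_comp (pre π) (fun k => ‖y (pre π i, k)‖ ^ 2)]
      rfl
    calc ‖∑ i : Fin t → Fin d, ∑ k : Fin t → Fin d, conj (y (i ∘ π, k ∘ π)) * y (i, k)‖
        ≤ ∑ i : Fin t → Fin d, ∑ k : Fin t → Fin d, ‖conj (y (i ∘ π, k ∘ π)) * y (i, k)‖ :=
          (norm_sum_le _ _).trans (Finset.sum_le_sum fun i _ => norm_sum_le _ _)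
      _ ≤ ∑ i : Fin t → Fin d, ∑ k : Fin t → Fin d,
          ((1 / 2 : ℝ) * ‖y (i ∘ π, k ∘ π)‖ ^ 2 + (1 / 2 : ℝ) * ‖y (i, k)‖ ^ 2) :=
          Finset.sum_le_sum fun i _ => Finset.sum_le_sum fun k _ => h2 i k
      _ = ∑ p, ‖y p‖ ^ 2 := by
          simp only [Finset.sum_add_distrib, ← Finset.mul_sum]
          rw [h3, Fintype.sum_prod_type]
          ring
  · simp [h]

lemma quad_bound (hd : 0 < d) (hE : 0 < dE) (ψ : Fin dE → ℂ) (hψ : ∑ x, ‖ψ x‖ ^ 2 = 1)
    (y : II d t × II d t → ℂ) :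
    ∑ x : Fin t → Fin dE, ∫ V, ‖∑ p, conj (y p) * Ym ψ x p V‖ ^ 2 ∂(haarU (Fin d × Fin dE)) ≤
      ((dE.ascFactorial t : ℝ) / (eMin (d * dE) d t : ℝ)) * ∑ p, ‖y p‖ ^ 2 := by
  have hN : d ≤ Fintype.card (Fin d × Fin dE) := by
    simp only [Fintype.card_prod, Fintype.card_fin]
    exact Nat.le_mul_of_pos_right d hE
  have h1 : ∀ x : Fin t → Fin dE,
      ∫ V, ‖∑ p, conj (y p) * Ym ψ x p V‖ ^ 2 ∂(haarU (Fin d × Fin dE)) ≤
      (1 / (eMin (d * dE) d t : ℝ)) * ((nP x x : ℝ) * ∑ p, ‖y p‖ ^ 2) := by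
    intro x
    rw [form_eq hE ψ hψ y x]
    have h2 := form_bound hd hN (fun i : Fin d => ((i, ⟨0, hE⟩) : Fin d × Fin dE))
      (fun a b h => (Prod.mk.inj h).1) (Bx y x)
    simp only [Fintype.card_prod, Fintype.card_fin] at h2
    refine h2.trans (mul_le_mul_of_nonneg_left ?_ (by positivity))
    unfold nP
    push_cast
    rw [Finset.sum_mul]
    exact Finset.sum_le_sum fun π _ => perm_term y x π
  have : Nonempty (Fin dE) := ⟨⟨0, hE⟩⟩
  have h3 := sum_nP_self (Fin dE) (Fin t)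
  simp only [Fintype.card_fin] at h3
  calc _ ≤ ∑ x : Fin t → Fin dE, (1 / (eMin (d * dE) d t : ℝ)) *
        ((nP x x : ℝ) * ∑ p, ‖y p‖ ^ 2) := Finset.sum_le_sum fun x _ => h1 x
    _ = (1 / (eMin (d * dE) d t : ℝ)) *
        (((∑ x : Fin t → Fin dE, nP x x : ℕ) : ℝ) * ∑ p, ‖y p‖ ^ 2) := by
        rw [← Finset.mul_sum, ← Finset.sum_mul]; push_cast; rfl
    _ = _ := by rw [h3]; ring

lemma form_Tc (ψ : Fin dE → ℂ) (y : II d t × II d t → ℂ) :
    star y ⬝ᵥ (choi (Tc d dE t ψ) *ᵥ y) =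
      ((∑ x : Fin t → Fin dE, ∫ V, ‖∑ p, conj (y p) * Ym ψ x p V‖ ^ 2
        ∂(haarU (Fin d × Fin dE)) : ℝ) : ℂ) := by
  rw [Complex.ofReal_sum]
  have h1 : ∀ x : Fin t → Fin dE, ((∫ V, ‖∑ p, conj (y p) * Ym ψ x p V‖ ^ 2
      ∂(haarU (Fin d × Fin dE)) : ℝ) : ℂ) =
      ∑ p, ∑ q, conj (y p) * (y q) *
        ∫ V, Ym ψ x p V * conj (Ym ψ x q V) ∂(haarU (Fin d × Fin dE)) := by
    intro x
    rw [int_normsq_sum (fun p V => conj (y p) * Ym ψ x p V)
      (fun p => continuous_const.mul (continuous_Ym ψ x p))]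
    refine Finset.sum_congr rfl fun p _ => Finset.sum_congr rfl fun q _ => ?_
    rw [← integral_const_mul]
    refine integral_congr_ae (Filter.Eventually.of_forall fun V => ?_)
    simp only [map_mul, Complex.conj_conj]
    ring
  simp only [h1]
  simp only [dotProduct, Matrix.mulVec, Pi.star_apply, choi_Tc, Finset.mul_sum, Finset.sum_mul]
  rw [Finset.sum_comm (s := (Finset.univ : Finset (Fin t → Fin dE)))]
  refine Finset.sum_congr rfl fun p _ => ?_
  rw [Finset.sum_comm (s := (Finset.univ : Finset (Fin t → Fin dE)))]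
  refine Finset.sum_congr rfl fun q _ => Finset.sum_congr rfl fun x _ => ?_
  change conj (y p) * _ = _
  ring

theorem CB_Tc (hd : 0 < d) (hE : 0 < dE) (ψ : Fin dE → ℂ) (hψ : ∑ x, ‖ψ x‖ ^ 2 = 1) :
    CB ((dE.ascFactorial t : ℝ) / (eMin (d * dE) d t : ℝ)) (Tc d dE t ψ) := by
  have hherm : (choi (Tc d dE t ψ)).IsHermitian := by
    ext p q
    rw [Matrix.conjTranspose_apply, choi_Tc, choi_Tc]
    change conj _ = _
    rw [map_sum]
    refine Finset.sum_congr rfl fun x _ => ?_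
    rw [← integral_conj]
    refine integral_congr_ae (Filter.Eventually.of_forall fun V => ?_)
    simp only [map_mul, Complex.conj_conj]
    ring
  constructor
  · refine PosSemidef.of_dotProduct_mulVec_nonneg hherm fun y => ?_
    rw [form_Tc]
    refine Complex.zero_le_real.2 (Finset.sum_nonneg fun x _ => integral_nonneg fun V => ?_)
    positivity
  · refine PosSemidef.of_dotProduct_mulVec_nonneg ?_ fun y => ?_
    · refine Matrix.IsHermitian.sub ?_ hherm
      ext p q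
      simp [Matrix.conjTranspose_apply, Matrix.one_apply, eq_comm]
      split_ifs <;> simp
    · rw [Matrix.sub_mulVec, dotProduct_sub, form_Tc]
      have h1 : star y ⬝ᵥ (((((dE.ascFactorial t : ℝ) / (eMin (d * dE) d t : ℝ) : ℝ) : ℂ) •
          (1 : Matrix (II d t × II d t) (II d t × II d t) ℂ)) *ᵥ y) =
          ((((dE.ascFactorial t : ℝ) / (eMin (d * dE) d t : ℝ)) * ∑ p, ‖y p‖ ^ 2 : ℝ) : ℂ) := by
        rw [Matrix.smul_mulVec, Matrix.one_mulVec, dotProduct_smul, smul_eq_mul,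
          Complex.ofReal_mul]
        congr 1
        rw [Complex.ofReal_sum]
        refine Finset.sum_congr rfl fun p _ => ?_
        change conj (y p) * y p = _
        rw [mul_comm, Complex.mul_conj, Complex.normSq_eq_norm_sq]
      rw [h1, ← Complex.ofReal_sub]
      exact Complex.zero_le_real.2 (sub_nonneg.2 (quad_bound hd hE ψ hψ y))

end Pool.Agent.U696.MO
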