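import Mathlib

open scoped BigOperators ComplexConjugate

namespace Pool.Agent.U696.MO

set_option linter.unusedSectionVars false

variable (S : Type) [Fintype S] [DecidableEq S] (d : ℕ)

/-- matrices indexed by words, as a Hilbert space -/
abbrev Hh := EuclideanSpace ℂ ((S → Fin d) × (S → Fin d))

variable {S d}

lemma inner_eq (X Y : Hh S d) : inner ℂ X Y = ∑ i, ∑ j, Y (i, j) * conj (X (i, j)) := by
  rw [PiLp.inner_apply, Fintype.sum_prod_type]
  simp only [RCLike.inner_apply]

/-- permutation operators -/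
noncomputable def PP (π : Equiv.Perm S) : Hh S d :=
  WithLp.toLp 2 fun p => if p.1 = p.2 ∘ π then 1 else 0

/-- right multiplication by a permutation operator -/
noncomputable def Rr (ρ : Equiv.Perm S) : Hh S d →ₗ[ℂ] Hh S d where
  toFun X := WithLp.toLp 2 fun p => X (p.1, p.2 ∘ ρ)
  map_add' X Y := by ext p; simp
  map_smul' c X := by ext p; simp

lemma Rr_apply (ρ : Equiv.Perm S) (X : Hh S d) (i j : S → Fin d) :
    Rr ρ X (i, j) = X (i, j ∘ ρ) := rfl

lemma PP_apply (π : Equiv.Perm S) (i j : S → Fin d) :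
    (PP π : Hh S d) (i, j) = if i = j ∘ π then 1 else 0 := rfl

/-- tensoring with the identity -/
noncomputable def T1 : Hh S d →ₗ[ℂ] Hh (Option S) d where
  toFun X := WithLp.toLp 2 fun p =>
    if p.1 none = p.2 none then X (fun s => p.1 (some s), fun s => p.2 (some s)) else 0
  map_add' X Y := by
    ext p
    simp only [PiLp.add_apply]
    split_ifs <;> simp
  map_smul' c X := by
    ext p
    simp

lemma T1_apply (X : Hh S d) (i j : Option S → Fin d) :
    T1 X (i, j) = if i none = j none then X (fun s => i (some s), fun s => j (some s)) else 0 :=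
  rfl

variable (S d) in
/-- the span of the permutation operators -/
noncomputable def WW : Submodule ℂ (Hh S d) := Submodule.span ℂ (Set.range PP)

lemma PP_mem (π : Equiv.Perm S) : (PP π : Hh S d) ∈ WW S d := Submodule.subset_span ⟨π, rfl⟩

lemma Rr_PP (ρ π : Equiv.Perm S) : Rr ρ (PP π : Hh S d) = PP (ρ * π) := by
  ext ⟨i, j⟩
  rfl

lemma T1_PP (π : Equiv.Perm S) : T1 (PP π : Hh S d) = PP (Equiv.optionCongr π) := by
  ext ⟨i, j⟩
  rw [T1_apply, PP_apply, PP_apply]
  by_cases h : i none = j none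
  · rw [if_pos h]
    have : ((fun s => i (some s)) = (fun s => j (some s)) ∘ π) ↔
        (i = j ∘ (Equiv.optionCongr π)) := by
      constructor
      · intro h2
        funext o
        cases o with
        | none => simpa using h
        | some s => exact congrFun h2 s
      · intro h2
        funext s
        exact congrFun h2 (some s)
    simp only [this]
  · rw [if_neg h, if_neg]
    intro h2
    exact h (congrFun h2 none)

lemma Rr_mem (ρ : Equiv.Perm S) {X : Hh S d} (hX : X ∈ WW S d) : Rr ρ X ∈ WW S d := by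
  have : (WW S d).map (Rr ρ) ≤ WW S d := by
    unfold WW
    rw [Submodule.map_span_le]
    rintro _ ⟨π, rfl⟩
    rw [Rr_PP]
    exact PP_mem _
  exact this (Submodule.mem_map_of_mem hX)

lemma T1_mem {X : Hh S d} (hX : X ∈ WW S d) : T1 X ∈ WW (Option S) d := by
  have : (WW S d).map T1 ≤ WW (Option S) d := by
    unfold WW
    rw [Submodule.map_span_le]
    rintro _ ⟨π, rfl⟩
    rw [T1_PP]
    exact PP_mem _
  exact this (Submodule.mem_map_of_mem hX)

/-- precomposition with a permutation -/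
def pre' (π : Equiv.Perm S) : (S → Fin d) ≃ (S → Fin d) where
  toFun a := a ∘ π
  invFun a := a ∘ π.symm
  left_inv a := by ext s; simp
  right_inv a := by ext s; simp

lemma inner_Rr (π σ : Equiv.Perm S) (X Y : Hh S d) :
    inner ℂ (Rr π X) (Rr σ Y) = inner ℂ X (Rr (π⁻¹ * σ) Y) := by
  rw [inner_eq, inner_eq]
  refine Finset.sum_congr rfl fun i _ => ?_
  rw [← Equiv.sum_comp (pre' π) (fun j => (Rr (π⁻¹ * σ) Y) (i, j) * conj (X (i, j)))]
  refine Finset.sum_congr rfl fun j _ => ?_
  rw [Rr_apply, Rr_apply, Rr_apply]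
  have : (pre' π) j ∘ ⇑(π⁻¹ * σ) = j ∘ σ := by
    funext s
    simp [pre']
  rw [this]
  rfl

/-- words on `Option S` -/
def oc (a : Fin d) (i : S → Fin d) : Option S → Fin d := fun o => o.elim a i

lemma sum_oc {E : Type*} [AddCommMonoid E] (g : (Option S → Fin d) → E) :
    ∑ i, g i = ∑ a : Fin d, ∑ i : S → Fin d, g (oc a i) := by
  rw [← Fintype.sum_prod_type' (f := fun (a : Fin d) (i : S → Fin d) => g (oc a i))]
  refine Fintype.sum_equiv (Equiv.piOptionEquivProd (β := fun _ => Fin d)) _ _ fun i => ?_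
  congr 1
  funext o
  cases o <;> rfl

lemma inner_T1 (X Y : Hh S d) (o : Option S) (ρ : Equiv.Perm S) :
    inner ℂ (T1 X) (Rr (Equiv.Perm.decomposeOption.symm (o, ρ)) (T1 Y)) =
      (if o = none then (d : ℂ) else 1) * inner ℂ X (Rr ρ Y) := by
  rw [inner_eq, inner_eq]
  simp only [sum_oc]
  have h1 : ∀ (a b : Fin d) (i j : S → Fin d),
      (Rr (Equiv.Perm.decomposeOption.symm (o, ρ)) (T1 Y)) (oc a i, oc b j) *
        conj (T1 X (oc a i, oc b j)) =
      if a = b ∧ a = (oc b j) o then Y (i, j ∘ ρ) * conj (X (i, j)) else 0 := by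
    intro a b i j
    rw [Rr_apply, T1_apply, T1_apply]
    have e1 : (oc a i : Option S → Fin d) none = a := rfl
    have e2 : (oc b j : Option S → Fin d) none = b := rfl
    have e3 : (fun s => (oc a i : Option S → Fin d) (some s)) = i := rfl
    have e4 : (fun s => (oc b j : Option S → Fin d) (some s)) = j := rfl
    rw [e1, e2, e3, e4]
    have e5 : (oc b j ∘ ⇑(Equiv.Perm.decomposeOption.symm (o, ρ))) none = (oc b j) o := by
      simp [Equiv.Perm.decomposeOption]
    rw [e5]
    by_cases hab : a = b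
    · by_cases hao : a = (oc b j) o
      · have e6 : (fun s => (oc b j ∘ ⇑(Equiv.Perm.decomposeOption.symm (o, ρ))) (some s)) =
            j ∘ ρ := by
          funext s
          simp only [Function.comp_apply, Equiv.Perm.decomposeOption_symm_apply,
            Equiv.Perm.coe_mul, Equiv.optionCongr_apply, Option.map_some]
          by_cases h : some (ρ s) = o
          · rw [← h, Equiv.swap_apply_right, e2]
            have : a = j (ρ s) := by rw [hao, ← h]; rfl
            rw [← this, hab]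
          · rw [Equiv.swap_apply_of_ne_of_ne (by simp) h]
            rfl
        rw [e6, if_pos hao, if_pos hab, if_pos ⟨hab, hao⟩]
      · rw [if_neg hao, if_neg (show ¬ (a = b ∧ a = (oc b j) o) from fun h => hao h.2), zero_mul]
    · rw [if_neg hab, if_neg (show ¬ (a = b ∧ a = (oc b j) o) from fun h => hab h.1), map_zero,
        mul_zero]
  simp only [h1]
  -- reorganise
  have h2 : ∑ a : Fin d, ∑ i : S → Fin d, ∑ b : Fin d, ∑ j : S → Fin d,
      (if a = b ∧ a = (oc b j) o then Y (i, j ∘ ρ) * conj (X (i, j)) else 0) =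
      ∑ i : S → Fin d, ∑ j : S → Fin d, (∑ a : Fin d, if a = (oc a j) o then (1 : ℂ) else 0) *
        (Y (i, j ∘ ρ) * conj (X (i, j))) := by
    rw [Finset.sum_comm]
    refine Finset.sum_congr rfl fun i _ => ?_
    have h3 : ∀ a : Fin d, ∑ b : Fin d, ∑ j : S → Fin d,
        (if a = b ∧ a = (oc b j) o then Y (i, j ∘ ρ) * conj (X (i, j)) else 0) =
        ∑ j : S → Fin d, (if a = (oc a j) o then (1 : ℂ) else 0) *
          (Y (i, j ∘ ρ) * conj (X (i, j))) := by
      intro a
      rw [Finset.sum_eq_single a]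
      · refine Finset.sum_congr rfl fun j _ => ?_
        by_cases h : a = (oc a j) o
        · rw [if_pos ⟨rfl, h⟩, if_pos h, one_mul]
        · rw [if_neg (fun h' => h h'.2), if_neg h, zero_mul]
      · intro b _ hb
        refine Finset.sum_eq_zero fun j _ => ?_
        rw [if_neg (fun h => hb h.1.symm)]
      · simp
    simp only [h3]
    rw [Finset.sum_comm]
    simp only [Finset.sum_mul]
  rw [h2, Finset.mul_sum]
  refine Finset.sum_congr rfl fun i _ => ?_
  rw [Finset.mul_sum]
  refine Finset.sum_congr rfl fun j _ => ?_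
  rw [Rr_apply]
  congr 1
  cases o with
  | none => simp [oc]
  | some s =>
    rw [if_neg (by simp), Finset.sum_eq_single (j s)]
    · rw [if_pos]; rfl
    · intro a _ ha
      rw [if_neg]
      exact ha
    · simp

lemma norm_T1 (X : Hh S d) : ‖T1 X‖ ^ 2 = d * ‖X‖ ^ 2 := by
  have h := inner_T1 X X none 1
  have h1 : (Equiv.Perm.decomposeOption.symm (none, (1 : Equiv.Perm S))) = 1 := by
    simp [Equiv.Perm.decomposeOption]
    rfl
  have h2 : ∀ (S : Type) [Fintype S] [DecidableEq S] (X : Hh S d), Rr 1 X = X := by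
    intro S _ _ X; ext ⟨i, j⟩; rfl
  rw [h1, h2, h2, if_pos rfl, inner_self_eq_norm_sq_to_K, inner_self_eq_norm_sq_to_K] at h
  have e : ∀ r : ℝ, (RCLike.ofReal r : ℂ) = (r : ℂ) := fun _ => rfl
  simp only [e] at h
  exact_mod_cast h

lemma norm_Rr (ρ : Equiv.Perm S) (X : Hh S d) : ‖Rr ρ X‖ ^ 2 = ‖X‖ ^ 2 := by
  have h := inner_Rr ρ ρ X X
  have h2 : Rr 1 X = X := by ext ⟨i, j⟩; rfl
  rw [inv_mul_cancel, h2, inner_self_eq_norm_sq_to_K, inner_self_eq_norm_sq_to_K] at h
  exact_mod_cast h

lemma sum_inner_T1 (X Y : Hh S d) :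
    ∑ ρ : Equiv.Perm (Option S), ‖inner ℂ (T1 X) (Rr ρ (T1 Y))‖ ^ 2 =
      ((d : ℝ) ^ 2 + Fintype.card S) * ∑ ρ : Equiv.Perm S, ‖inner ℂ X (Rr ρ Y)‖ ^ 2 := by
  rw [← Equiv.sum_comp Equiv.Perm.decomposeOption.symm, Fintype.sum_prod_type, Fintype.sum_option]
  simp only [inner_T1]
  simp only [if_true, reduceCtorEq, if_false, one_mul, norm_mul, mul_pow, ← Finset.mul_sum,
    Finset.sum_const, Finset.card_univ, nsmul_eq_mul]
  simp
  ring

/-- the Gram inequality -/
lemma gram {ι : Type*} [Fintype ι] (x : ι → Hh S d) (hx : ∀ a, x a ∈ WW S d) :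
    (∑ a, ‖x a‖ ^ 2) ^ 2 ≤
      (Module.finrank ℂ (WW S d) : ℝ) * ∑ a, ∑ b, ‖inner ℂ (x a) (x b)‖ ^ 2 := by
  let f := stdOrthonormalBasis ℂ (WW S d)
  let y : ι → WW S d := fun a => ⟨x a, hx a⟩
  have hxy : ∀ a b, inner ℂ (x a) (x b) = inner ℂ (y a) (y b) := fun a b => rfl
  have h1 : ∀ a, ‖x a‖ ^ 2 = ∑ c, ‖inner ℂ (f c) (y a)‖ ^ 2 := by
    intro a
    have := f.sum_sq_norm_inner_right (y a)
    rw [this]; rfl
  let G : Fin (Module.finrank ℂ (WW S d)) → Fin (Module.finrank ℂ (WW S d)) → ℂ := fun c e =>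
    ∑ a, inner ℂ (f c) (y a) * inner ℂ (y a) (f e)
  have h2 : ∀ c, G c c = ((∑ a, ‖inner ℂ (f c) (y a)‖ ^ 2 : ℝ) : ℂ) := by
    intro c
    simp only [G]
    rw [Complex.ofReal_sum]
    refine Finset.sum_congr rfl fun a _ => ?_
    rw [← inner_conj_symm (𝕜 := ℂ) (y a) (f c), Complex.mul_conj, Complex.normSq_eq_norm_sq]
  have h3 : ∑ a, ‖x a‖ ^ 2 = ∑ c, ‖G c c‖ := by
    simp only [h1]
    rw [Finset.sum_comm]
    refine Finset.sum_congr rfl fun c _ => ?_
    rw [h2, Complex.norm_real, Real.norm_of_nonneg (by positivity)]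
  have h4 : ∑ c, ∑ e, ‖G c e‖ ^ 2 = ∑ a, ∑ b, ‖inner ℂ (x a) (x b)‖ ^ 2 := by
    have h5 : ((∑ c, ∑ e, ‖G c e‖ ^ 2 : ℝ) : ℂ) =
        ((∑ a, ∑ b, ‖inner ℂ (x a) (x b)‖ ^ 2 : ℝ) : ℂ) := by
      have h6 : ((∑ c, ∑ e, ‖G c e‖ ^ 2 : ℝ) : ℂ) = ∑ c, ∑ e, ∑ a, ∑ b,
          (inner ℂ (f c) (y a) * inner ℂ (y a) (f e)) *
            (inner ℂ (y b) (f c) * inner ℂ (f e) (y b)) := by
        push_cast
        refine Finset.sum_congr rfl fun c _ => Finset.sum_congr rfl fun e _ => ?_
        have : ((‖G c e‖ : ℝ) : ℂ) ^ 2 = G c e * conj (G c e) := by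
          rw [Complex.mul_conj, Complex.normSq_eq_norm_sq]; push_cast; rfl
        rw [this]
        simp only [G]
        rw [map_sum, Finset.sum_mul_sum]
        refine Finset.sum_congr rfl fun a _ => Finset.sum_congr rfl fun b _ => ?_
        rw [map_mul, ← inner_conj_symm (𝕜 := ℂ) (y b) (f c), ← inner_conj_symm (𝕜 := ℂ) (f e) (y b)]
      have h7 : ((∑ a, ∑ b, ‖inner ℂ (x a) (x b)‖ ^ 2 : ℝ) : ℂ) = ∑ a, ∑ b,
          inner ℂ (y b) (y a) * inner ℂ (y a) (y b) := by
        push_cast
        refine Finset.sum_congr rfl fun a _ => Finset.sum_congr rfl fun b _ => ?_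
        rw [hxy, ← inner_conj_symm (𝕜 := ℂ) (y b) (y a), mul_comm, Complex.mul_conj,
          Complex.normSq_eq_norm_sq]
        push_cast; rfl
      rw [h6, h7]
      have h8 : ∀ a b, inner ℂ (y b) (y a) * inner ℂ (y a) (y b) = ∑ c, ∑ e,
          (inner ℂ (f c) (y a) * inner ℂ (y a) (f e)) *
            (inner ℂ (y b) (f c) * inner ℂ (f e) (y b)) := by
        intro a b
        rw [← f.sum_inner_mul_inner (y b) (y a), ← f.sum_inner_mul_inner (y a) (y b),
          Finset.sum_mul_sum]
        refine Finset.sum_congr rfl fun c _ => Finset.sum_congr rfl fun e _ => ?_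
        ring
      simp only [h8]
      calc ∑ c, ∑ e, ∑ a, ∑ b, (inner ℂ (f c) (y a) * inner ℂ (y a) (f e)) *
            (inner ℂ (y b) (f c) * inner ℂ (f e) (y b))
          = ∑ c, ∑ a, ∑ e, ∑ b, (inner ℂ (f c) (y a) * inner ℂ (y a) (f e)) *
            (inner ℂ (y b) (f c) * inner ℂ (f e) (y b)) :=
            Finset.sum_congr rfl fun c _ => Finset.sum_comm
        _ = ∑ a, ∑ c, ∑ e, ∑ b, (inner ℂ (f c) (y a) * inner ℂ (y a) (f e)) *
            (inner ℂ (y b) (f c) * inner ℂ (f e) (y b)) := Finset.sum_comm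
        _ = ∑ a, ∑ c, ∑ b, ∑ e, (inner ℂ (f c) (y a) * inner ℂ (y a) (f e)) *
            (inner ℂ (y b) (f c) * inner ℂ (f e) (y b)) :=
            Finset.sum_congr rfl fun a _ => Finset.sum_congr rfl fun c _ => Finset.sum_comm
        _ = _ := Finset.sum_congr rfl fun a _ => Finset.sum_comm
    exact_mod_cast h5
  rw [← h4, h3]
  have h5 := sq_sum_le_card_mul_sum_sq (s := (Finset.univ :
    Finset (Fin (Module.finrank ℂ (WW S d))))) (f := fun c => ‖G c c‖)
  rw [Finset.card_univ, Fintype.card_fin] at h5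
  refine h5.trans (mul_le_mul_of_nonneg_left ?_ (by positivity))
  refine Finset.sum_le_sum fun c _ => ?_
  exact Finset.single_le_sum (f := fun e => ‖G c e‖ ^ 2) (fun e _ => by positivity)
    (Finset.mem_univ c)

/-- the recursion for the dimensions -/
lemma rank_rec (hd : 0 < d) :
    ((Fintype.card S : ℝ) + 1) * (d : ℝ) ^ 2 * (Module.finrank ℂ (WW S d) : ℝ) ≤
      (Module.finrank ℂ (WW (Option S) d) : ℝ) * ((d : ℝ) ^ 2 + Fintype.card S) := by
  set m := Module.finrank ℂ (WW S d) with hm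
  let f := stdOrthonormalBasis ℂ (WW S d)
  let g : Fin m → Hh S d := fun a => (f a : Hh S d)
  have hg : Orthonormal ℂ g := by
    have := f.orthonormal
    exact this.comp_linearIsometry (WW S d).subtypeₗᵢ
  have hgn : ∀ a, ‖g a‖ = 1 := hg.1
  let x : Fin m × Equiv.Perm (Option S) → Hh (Option S) d := fun q => Rr q.2 (T1 (g q.1))
  have hx : ∀ q, x q ∈ WW (Option S) d := fun q => Rr_mem _ (T1_mem (f q.1).2)
  have h1 := gram x hx
  have h2 : ∑ q, ‖x q‖ ^ 2 = (m : ℝ) * (((Fintype.card S + 1).factorial : ℝ) * d) := by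
    simp only [x, norm_Rr, norm_T1, hgn]
    rw [Fintype.sum_prod_type]
    simp [Fintype.card_perm]
  have h3 : ∑ q, ∑ q', ‖inner ℂ (x q) (x q')‖ ^ 2 ≤ ((Fintype.card S + 1).factorial : ℝ) *
      (((d : ℝ) ^ 2 + Fintype.card S) * (((Fintype.card S).factorial : ℝ) * m)) := by
    calc ∑ q, ∑ q', ‖inner ℂ (x q) (x q')‖ ^ 2
        = ∑ a, ∑ π : Equiv.Perm (Option S), ∑ b, ∑ σ : Equiv.Perm (Option S),
            ‖inner ℂ (T1 (g a)) (Rr (π⁻¹ * σ) (T1 (g b)))‖ ^ 2 := by
          rw [Fintype.sum_prod_type]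
          refine Finset.sum_congr rfl fun a _ => Finset.sum_congr rfl fun π _ => ?_
          rw [Fintype.sum_prod_type]
          refine Finset.sum_congr rfl fun b _ => Finset.sum_congr rfl fun σ _ => ?_
          simp only [x, inner_Rr]
      _ = ∑ a, ∑ _π : Equiv.Perm (Option S), ∑ b, ((d : ℝ) ^ 2 + Fintype.card S) *
            ∑ ρ : Equiv.Perm S, ‖inner ℂ (g a) (Rr ρ (g b))‖ ^ 2 := by
          refine Finset.sum_congr rfl fun a _ => Finset.sum_congr rfl fun π _ =>
            Finset.sum_congr rfl fun b _ => ?_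
          rw [← sum_inner_T1, ← Equiv.sum_comp (Equiv.mulLeft π⁻¹)
            (fun ρ => ‖inner ℂ (T1 (g a)) (Rr ρ (T1 (g b)))‖ ^ 2)]
          rfl
      _ = ((Fintype.card S + 1).factorial : ℝ) * (((d : ℝ) ^ 2 + Fintype.card S) *
            ∑ b, ∑ ρ : Equiv.Perm S, ∑ a, ‖inner ℂ (g a) (Rr ρ (g b))‖ ^ 2) := by
          simp only [Finset.sum_const, Finset.card_univ, Fintype.card_perm, Fintype.card_option,
            nsmul_eq_mul, ← Finset.mul_sum]
          congr 2
          rw [Finset.sum_comm]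
          refine Finset.sum_congr rfl fun b _ => ?_
          rw [Finset.sum_comm]
      _ ≤ ((Fintype.card S + 1).factorial : ℝ) * (((d : ℝ) ^ 2 + Fintype.card S) *
            ∑ b : Fin m, ∑ _ρ : Equiv.Perm S, (1 : ℝ)) := by
          refine mul_le_mul_of_nonneg_left (mul_le_mul_of_nonneg_left ?_ (by positivity))
            (by positivity)
          refine Finset.sum_le_sum fun b _ => Finset.sum_le_sum fun ρ _ => ?_
          have h4 := hg.sum_inner_products_le (x := Rr ρ (g b)) (s := Finset.univ)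
          rw [norm_Rr, hgn, one_pow] at h4
          exact h4
      _ = _ := by
          simp only [Finset.sum_const, Finset.card_univ, Fintype.card_perm, Fintype.card_fin,
            nsmul_eq_mul]
          ring
  rw [h2] at h1
  by_cases hm0 : m = 0
  · rw [hm0]
    simp only [Nat.cast_zero, mul_zero]
    positivity
  have hmpos : (0 : ℝ) < m := by exact_mod_cast Nat.pos_of_ne_zero hm0
  have h4 := h1.trans (mul_le_mul_of_nonneg_left h3 (Nat.cast_nonneg _))
  have hfac : ((Fintype.card S + 1).factorial : ℝ) =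
      ((Fintype.card S : ℝ) + 1) * ((Fintype.card S).factorial : ℝ) := by
    rw [Nat.factorial_succ]; push_cast; ring
  have hfpos : (0 : ℝ) < ((Fintype.card S).factorial : ℝ) := by positivity
  have hfpos' : (0 : ℝ) < ((Fintype.card S + 1).factorial : ℝ) := by positivity
  set F : ℝ := ((Fintype.card S).factorial : ℝ)
  set F' : ℝ := ((Fintype.card S + 1).factorial : ℝ)
  set r' : ℝ := (Module.finrank ℂ (WW (Option S) d) : ℝ)
  have h5 : (m * F' * F) * (((Fintype.card S : ℝ) + 1) * (d : ℝ) ^ 2 * m) ≤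
      (m * F' * F) * (r' * ((d : ℝ) ^ 2 + Fintype.card S)) := by
    calc (m * F' * F) * (((Fintype.card S : ℝ) + 1) * (d : ℝ) ^ 2 * m)
        = ((m : ℝ) * (F' * d)) ^ 2 := by rw [hfac]; ring
      _ ≤ _ := h4
      _ = _ := by ring
  exact le_of_mul_le_mul_left h5 (by positivity)

/-- linear independence in the stable range -/
lemma rank_stable (h : Fintype.card S ≤ d) :
    Module.finrank ℂ (WW S d) = (Fintype.card S).factorial := by
  obtain ⟨e⟩ : Nonempty (S ↪ Fin d) := Function.Embedding.nonempty_of_card_le (by simpa using h)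
  have hli : LinearIndependent ℂ (PP : Equiv.Perm S → Hh S d) := by
    rw [Fintype.linearIndependent_iff]
    intro g hg σ
    have h1 := congrArg (fun X : Hh S d => X (e ∘ σ, e)) hg
    simp only [PiLp.zero_apply] at h1
    have h2 : (∑ i, g i • (PP i : Hh S d)) (e ∘ σ, e) = ∑ i, g i * (if σ = i then 1 else 0) := by
      rw [WithLp.ofLp_sum, Finset.sum_apply]
      refine Finset.sum_congr rfl fun π _ => ?_
      rw [PiLp.smul_apply, PP_apply, smul_eq_mul]
      have : ((e : S → Fin d) ∘ σ = e ∘ π) ↔ σ = π := by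
        constructor
        · intro h
          ext s
          exact e.injective (congrFun h s)
        · rintro rfl; rfl
      simp only [this]
    rw [h2] at h1
    simpa using h1
  unfold WW
  rw [finrank_span_eq_card hli, Fintype.card_perm]

/-- the dimension only depends on the cardinality -/
lemma rank_congr {S' : Type} [Fintype S'] [DecidableEq S'] (e : S ≃ S') :
    Module.finrank ℂ (WW S d) = Module.finrank ℂ (WW S' d) := by
  let Φ : Hh S d ≃ₗ[ℂ] Hh S' d :=
    { toFun := fun X => WithLp.toLp 2 fun p => X (p.1 ∘ e, p.2 ∘ e)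
      invFun := fun X => WithLp.toLp 2 fun p => X (p.1 ∘ e.symm, p.2 ∘ e.symm)
      map_add' := fun X Y => by ext p; simp
      map_smul' := fun c X => by ext p; simp
      left_inv := fun X => by ext p; simp [Function.comp_assoc]
      right_inv := fun X => by ext p; simp [Function.comp_assoc] }
  have h1 : (WW S d).map (Φ : Hh S d →ₗ[ℂ] Hh S' d) = WW S' d := by
    unfold WW
    rw [Submodule.map_span]
    congr 1
    ext X
    simp only [Set.mem_image, Set.mem_range, exists_exists_eq_and]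
    have h2 : ∀ π : Equiv.Perm S, (Φ : Hh S d →ₗ[ℂ] Hh S' d) (PP π) = PP (e.permCongr π) := by
      intro π
      ext ⟨i, j⟩
      change (if i ∘ e = (j ∘ e) ∘ π then (1 : ℂ) else 0) = if i = j ∘ (e.permCongr π) then 1 else 0
      have : (i ∘ e = (j ∘ e) ∘ π) ↔ (i = j ∘ (e.permCongr π)) := by
        constructor
        · intro h
          funext s
          have := congrFun h (e.symm s)
          simpa [Equiv.permCongr_apply] using this
        · intro h
          funext s
          have := congrFun h (e s)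
          simpa [Equiv.permCongr_apply] using this
      simp only [this]
    constructor
    · rintro ⟨π, rfl⟩
      exact ⟨e.permCongr π, (h2 π).symm⟩
    · rintro ⟨π, rfl⟩
      exact ⟨e.permCongr.symm π, by rw [h2, Equiv.apply_symm_apply]⟩
  rw [← h1, LinearEquiv.finrank_map_eq]

end Pool.Agent.U696.MO
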