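import Pool.Agent.U696.MO.Chan
import Pool.Agent.U696.MO.Span

open Matrix MeasureTheory
open scoped BigOperators ComplexConjugate

namespace Pool.Agent.U696.MO

open Pool.Agent.V11219.MomentOp

set_option linter.unusedSectionVars false

variable {d t : ℕ}

/-- the map `X ↦ U X U†` -/
noncomputable def conjMap (U : Matrix (Fin d) (Fin d) ℂ) : Mat d →ₗ[ℂ] Mat d where
  toFun X := U * X * Uᴴ
  map_add' X Y := by rw [Matrix.mul_add, Matrix.add_mul]
  map_smul' c X := by simp

/-- the moment operator of the Haar ensemble -/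
noncomputable def TH (d t : ℕ) : MatT d t →ₗ[ℂ] MatT d t :=
  momentOp (haarU (Fin d)) t (fun U => conjMap (U : Matrix (Fin d) (Fin d) ℂ))

lemma conjMap_single (U : UU (Fin d)) (i j k l : Fin d) :
    conjMap (U : Matrix (Fin d) (Fin d) ℂ) (Matrix.single i j 1) k l =
      ent U k i * conj (ent U l j) := by
  simp only [conjMap, LinearMap.coe_mk, AddHom.coe_mk]
  rw [Matrix.mul_apply, Finset.sum_eq_single j]
  · rw [Matrix.mul_apply, Finset.sum_eq_single i]
    · simp [ent]
    · intro x _ hx; simp [hx.symm]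
    · simp
  · intro x _ hx
    rw [Matrix.mul_apply]
    simp [Matrix.single_apply, hx.symm]
  · simp

lemma TH_single (i j k l : II d t) :
    TH d t (Matrix.single i j 1) k l =
      ∫ U, ∏ s, (ent U (k s) (i s) * conj (ent U (l s) (j s))) ∂(haarU (Fin d)) := by
  unfold TH
  rw [momentOp_single]
  refine integral_congr_ae (Filter.Eventually.of_forall fun U => ?_)
  simp only
  rw [tensorPow_single]
  refine Finset.prod_congr rfl fun s _ => ?_
  rw [conjMap_single]

/-- rows are orthonormal -/
lemma row_orth (U : UU (Fin d)) (a b : Fin d) :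
    ∑ c, ent U a c * conj (ent U b c) = if a = b then 1 else 0 := by
  have h := congrFun (congrFun (Matrix.mem_unitaryGroup_iff.1 U.2) a) b
  rw [Matrix.mul_apply, Matrix.one_apply] at h
  rw [← h]
  refine Finset.sum_congr rfl fun c _ => ?_
  rw [Matrix.star_apply]; rfl

/-- permutation operators are fixed -/
lemma TH_PP (π : Equiv.Perm (Fin t)) (k l : II d t) :
    ∑ i : II d t, ∑ j : II d t, (PP π : Hh (Fin t) d) (i, j) * TH d t (Matrix.single i j 1) k l =
      (PP π : Hh (Fin t) d) (k, l) := by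
  rw [Finset.sum_comm]
  have h1 : ∀ j : II d t, ∑ i : II d t, (PP π : Hh (Fin t) d) (i, j) *
      TH d t (Matrix.single i j 1) k l =
      ∫ U, ∏ s, (ent U (k (π.symm s)) (j s) * conj (ent U (l s) (j s))) ∂(haarU (Fin d)) := by
    intro j
    rw [Finset.sum_eq_single (j ∘ π)]
    · rw [PP_apply, if_pos rfl, one_mul, TH_single]
      refine integral_congr_ae (Filter.Eventually.of_forall fun U => ?_)
      simp only
      rw [Finset.prod_mul_distrib, Finset.prod_mul_distrib]
      congr 1
      rw [← Equiv.prod_comp π (fun s => ent U (k (π.symm s)) (j s))]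
      simp
    · intro i _ hi
      rw [PP_apply, if_neg hi, zero_mul]
    · simp
  simp only [h1]
  rw [← integral_finsetSum]
  · have h2 : ∀ U : UU (Fin d), ∑ j : II d t, ∏ s, (ent U (k (π.symm s)) (j s) *
        conj (ent U (l s) (j s))) = if k = l ∘ π then 1 else 0 := by
      intro U
      have h3 := Finset.prod_univ_sum (fun _ : Fin t => (Finset.univ : Finset (Fin d)))
        (fun s c => ent U (k (π.symm s)) c * conj (ent U (l s) c))
      rw [Fintype.piFinset_univ] at h3
      rw [← h3]
      simp only [row_orth]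
      by_cases h : k = l ∘ π
      · rw [if_pos h]
        refine Finset.prod_eq_one fun s _ => ?_
        rw [if_pos]
        rw [h]; simp
      · rw [if_neg h]
        obtain ⟨s, hs⟩ := Function.ne_iff.1 h
        refine Finset.prod_eq_zero (Finset.mem_univ (π s)) ?_
        rw [if_neg]
        simpa using hs
    simp only [h2]
    rw [PP_apply]
    simp
  · intro j _
    exact integrable_cont (continuous_finsetProd _ fun s _ => (continuous_ent _ _).mul
      (Complex.continuous_conj.comp (continuous_ent _ _)))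

lemma TH_fix {X : Hh (Fin t) d} (hX : X ∈ WW (Fin t) d) (k l : II d t) :
    ∑ i : II d t, ∑ j : II d t, X (i, j) * TH d t (Matrix.single i j 1) k l = X (k, l) := by
  unfold WW at hX
  induction hX using Submodule.span_induction with
  | mem x hx =>
    obtain ⟨π, rfl⟩ := hx
    exact TH_PP π k l
  | zero => simp
  | add x y _ _ hx hy =>
    simp only [PiLp.add_apply, add_mul, Finset.sum_add_distrib]
    rw [hx, hy]
  | smul c x _ hx =>
    simp only [PiLp.smul_apply, smul_eq_mul, mul_assoc, ← Finset.mul_sum]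
    rw [hx]

theorem TH_ge : (Module.finrank ℂ (WW (Fin t) d) : ℝ) ≤ hsNormSq (TH d t) := by
  set m := Module.finrank ℂ (WW (Fin t) d) with hm
  let f := stdOrthonormalBasis ℂ (WW (Fin t) d)
  let g : Fin m → Hh (Fin t) d := fun a => (f a : Hh (Fin t) d)
  have hg : Orthonormal ℂ g := f.orthonormal.comp_linearIsometry (WW (Fin t) d).subtypeₗᵢ
  let G : II d t × II d t → Hh (Fin t) d := fun p =>
    WithLp.toLp 2 fun q => TH d t (Matrix.single p.1 p.2 1) q.1 q.2
  have h1 : hsNormSq (TH d t) = ∑ p, ‖G p‖ ^ 2 := by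
    unfold hsNormSq
    rw [Fintype.sum_prod_type]
    refine Finset.sum_congr rfl fun i _ => Finset.sum_congr rfl fun j _ => ?_
    rw [EuclideanSpace.norm_sq_eq, Fintype.sum_prod_type]
  have h2 : ∀ p, ∑ a, ‖inner ℂ (g a) (G p)‖ ^ 2 ≤ ‖G p‖ ^ 2 := by
    intro p
    exact hg.sum_inner_products_le (x := G p) (s := Finset.univ)
  have h3 : ∀ a, (1 : ℝ) ≤ ∑ p, ‖inner ℂ (g a) (G p)‖ ^ 2 := by
    intro a
    let ha : Hh (Fin t) d := WithLp.toLp 2 fun p => conj (inner ℂ (g a) (G p))
    have e1 : inner ℂ ha (g a) = (1 : ℂ) := by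
      rw [inner_eq]
      have e2 : ∀ i j, ha (i, j) = conj (inner ℂ (g a) (G (i, j))) := fun i j => rfl
      simp only [e2, Complex.conj_conj]
      have e3 : ∀ i j, (g a) (i, j) * inner ℂ (g a) (G (i, j)) =
          ∑ k, ∑ l, ((g a) (i, j) * TH d t (Matrix.single i j 1) k l) * conj ((g a) (k, l)) := by
        intro i j
        rw [inner_eq, Finset.mul_sum]
        refine Finset.sum_congr rfl fun k _ => ?_
        rw [Finset.mul_sum]
        refine Finset.sum_congr rfl fun l _ => ?_
        rw [mul_assoc]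
      simp only [e3]
      have e4 : ∑ i, ∑ j, ∑ k, ∑ l, ((g a) (i, j) * TH d t (Matrix.single i j 1) k l) *
          conj ((g a) (k, l)) = ∑ k, ∑ l, (∑ i, ∑ j, (g a) (i, j) *
            TH d t (Matrix.single i j 1) k l) * conj ((g a) (k, l)) := by
        simp only [Finset.sum_mul]
        calc ∑ i, ∑ j, ∑ k, ∑ l, ((g a) (i, j) * TH d t (Matrix.single i j 1) k l) *
              conj ((g a) (k, l))
            = ∑ i, ∑ k, ∑ j, ∑ l, ((g a) (i, j) * TH d t (Matrix.single i j 1) k l) *
              conj ((g a) (k, l)) := Finset.sum_congr rfl fun i _ => Finset.sum_comm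
          _ = ∑ k, ∑ i, ∑ j, ∑ l, ((g a) (i, j) * TH d t (Matrix.single i j 1) k l) *
              conj ((g a) (k, l)) := Finset.sum_comm
          _ = ∑ k, ∑ i, ∑ l, ∑ j, ((g a) (i, j) * TH d t (Matrix.single i j 1) k l) *
              conj ((g a) (k, l)) :=
              Finset.sum_congr rfl fun k _ => Finset.sum_congr rfl fun i _ => Finset.sum_comm
          _ = _ := Finset.sum_congr rfl fun k _ => Finset.sum_comm
      rw [e4]
      have e8 : ∀ k l, ∑ i, ∑ j, (g a) (i, j) * TH d t (Matrix.single i j 1) k l =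
          (g a) (k, l) := fun k l => TH_fix (f a).2 k l
      have e5 : ∑ k, ∑ l, (∑ i, ∑ j, (g a) (i, j) *
            TH d t (Matrix.single i j 1) k l) * conj ((g a) (k, l)) = inner ℂ (g a) (g a) := by
        rw [inner_eq]
        refine Finset.sum_congr rfl fun k _ => Finset.sum_congr rfl fun l _ => ?_
        rw [e8]
      rw [e5, inner_self_eq_norm_sq_to_K, hg.1 a]
      simp
    have e6 : (1 : ℝ) ≤ ‖ha‖ := by
      have := norm_inner_le_norm (𝕜 := ℂ) ha (g a)
      rw [e1, hg.1 a] at this
      simpa using this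
    have e7 : ‖ha‖ ^ 2 = ∑ p, ‖inner ℂ (g a) (G p)‖ ^ 2 := by
      rw [EuclideanSpace.norm_sq_eq]
      refine Finset.sum_congr rfl fun p _ => ?_
      change ‖conj (inner ℂ (g a) (G p))‖ ^ 2 = _
      rw [Complex.norm_conj]
    rw [← e7]
    nlinarith
  calc (m : ℝ) = ∑ _a : Fin m, (1 : ℝ) := by simp
    _ ≤ ∑ a : Fin m, ∑ p, ‖inner ℂ (g a) (G p)‖ ^ 2 := Finset.sum_le_sum fun a _ => h3 a
    _ = ∑ p, ∑ a : Fin m, ‖inner ℂ (g a) (G p)‖ ^ 2 := Finset.sum_comm
    _ ≤ ∑ p, ‖G p‖ ^ 2 := Finset.sum_le_sum fun p _ => h2 p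
    _ = _ := h1.symm

end Pool.Agent.U696.MO
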