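import Pool.Agent.U696.MO.Haar

open Matrix MeasureTheory
open scoped BigOperators ComplexConjugate

namespace Pool.Agent.U696.MO

open Pool.Agent.V11219.MomentOp

set_option linter.unusedSectionVars false

variable {d t : ℕ}

lemma ext_single {A B : MatT d t →ₗ[ℂ] MatT d t}
    (h : ∀ i j k l, A (Matrix.single i j 1) k l = B (Matrix.single i j 1) k l) : A = B := by
  refine LinearMap.ext fun X => ?_
  ext k l
  rw [apply_eq_sum, apply_eq_sum B]
  simp only [h]

lemma prod_ent_mul (V U : UU (Fin d)) (k i : II d t) :
    ∏ a, ent (V * U) (k a) (i a) =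
      ∑ r : II d t, (∏ a, ent V (k a) (r a)) * ∏ a, ent U (r a) (i a) := by
  simp only [ent_mul]
  rw [Finset.prod_univ_sum, Fintype.piFinset_univ]
  simp only [Finset.prod_mul_distrib]

lemma TH_inv (V : UU (Fin d)) (i j k l : II d t) :
    ∑ r : II d t, ∑ s : II d t, TH d t (Matrix.single i j 1) r s *
      ∏ a, (ent V (k a) (r a) * conj (ent V (l a) (s a))) =
      TH d t (Matrix.single i j 1) k l := by
  have h1 : ∀ r s : II d t, TH d t (Matrix.single i j 1) r s *
      ∏ a, (ent V (k a) (r a) * conj (ent V (l a) (s a))) =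
      ∫ U, (∏ a, (ent U (r a) (i a) * conj (ent U (s a) (j a)))) *
        ∏ a, (ent V (k a) (r a) * conj (ent V (l a) (s a))) ∂(haarU (Fin d)) := by
    intro r s
    rw [TH_single, integral_mul_const]
  simp only [h1]
  have hint : ∀ r s : II d t, Integrable (fun U => (∏ a, (ent U (r a) (i a) *
      conj (ent U (s a) (j a)))) * ∏ a, (ent V (k a) (r a) * conj (ent V (l a) (s a))))
      (haarU (Fin d)) := by
    intro r s
    exact integrable_cont ((continuous_finsetProd _ fun a _ => (continuous_ent _ _).mul
      (Complex.continuous_conj.comp (continuous_ent _ _))).mul continuous_const)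
  have h2 : ∀ r : II d t, ∑ s : II d t, ∫ U, (∏ a, (ent U (r a) (i a) *
      conj (ent U (s a) (j a)))) * ∏ a, (ent V (k a) (r a) * conj (ent V (l a) (s a)))
        ∂(haarU (Fin d)) = ∫ U, ∑ s : II d t, (∏ a, (ent U (r a) (i a) *
      conj (ent U (s a) (j a)))) * ∏ a, (ent V (k a) (r a) * conj (ent V (l a) (s a)))
        ∂(haarU (Fin d)) := by
    intro r
    rw [integral_finsetSum]
    intro s _
    exact hint r s
  simp only [h2]
  rw [← integral_finsetSum]
  · rw [TH_single]
    refine Eq.trans ?_ (integral_mul_left' V (fun U : UU (Fin d) =>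
      ∏ s, (ent U (k s) (i s) * conj (ent U (l s) (j s)))))
    refine integral_congr_ae (Filter.Eventually.of_forall fun U => ?_)
    simp only
    rw [Finset.prod_mul_distrib (f := fun s => ent (V * U) (k s) (i s)), ← map_prod,
      prod_ent_mul, prod_ent_mul, map_sum, Finset.sum_mul_sum]
    refine Finset.sum_congr rfl fun r _ => Finset.sum_congr rfl fun s _ => ?_
    rw [Finset.prod_mul_distrib, Finset.prod_mul_distrib, map_mul, map_prod, map_prod]
    ring
  · intro r _
    exact integrable_finsetSum _ fun s _ => hint r s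

lemma TH_idem : TH d t * TH d t = TH d t := by
  refine ext_single fun i j k l => ?_
  rw [Module.End.mul_apply, apply_eq_sum]
  have h1 : ∀ r s : II d t, TH d t (Matrix.single i j 1) r s * TH d t (Matrix.single r s 1) k l =
      ∫ V, TH d t (Matrix.single i j 1) r s *
        ∏ a, (ent V (k a) (r a) * conj (ent V (l a) (s a))) ∂(haarU (Fin d)) := by
    intro r s
    rw [TH_single r s k l, integral_const_mul]
  simp only [h1]
  have hint : ∀ r s : II d t, Integrable (fun V => TH d t (Matrix.single i j 1) r s *
        ∏ a, (ent V (k a) (r a) * conj (ent V (l a) (s a)))) (haarU (Fin d)) := by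
    intro r s
    exact integrable_cont (continuous_const.mul (continuous_finsetProd _ fun a _ =>
      (continuous_ent _ _).mul (Complex.continuous_conj.comp (continuous_ent _ _))))
  have h2 : ∀ r : II d t, ∑ s : II d t, ∫ V, TH d t (Matrix.single i j 1) r s *
        ∏ a, (ent V (k a) (r a) * conj (ent V (l a) (s a))) ∂(haarU (Fin d)) =
      ∫ V, ∑ s : II d t, TH d t (Matrix.single i j 1) r s *
        ∏ a, (ent V (k a) (r a) * conj (ent V (l a) (s a))) ∂(haarU (Fin d)) := by
    intro r
    rw [integral_finsetSum]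
    intro s _
    exact hint r s
  simp only [h2]
  rw [← integral_finsetSum]
  · simp only [TH_inv]
    simp
  · intro r _
    exact integrable_finsetSum _ fun s _ => hint r s

lemma TH_pow (k : ℕ) : TH d t ^ (k + 1) = TH d t := by
  induction k with
  | zero => simp
  | succ k ih => rw [pow_succ, ih, TH_idem]

/-- reindexing of unitary groups -/
noncomputable def reU {m n : Type} [Fintype m] [DecidableEq m] [Fintype n] [DecidableEq n]
    (σ : m ≃ n) : UU m ≃* UU n where
  toFun U := ⟨(U : Matrix m m ℂ).submatrix σ.symm σ.symm, by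
    have h := Matrix.mem_unitaryGroup_iff.1 U.2
    rw [Matrix.star_eq_conjTranspose] at h
    rw [Matrix.mem_unitaryGroup_iff, Matrix.star_eq_conjTranspose, Matrix.conjTranspose_submatrix,
      Matrix.submatrix_mul_equiv, h, Matrix.submatrix_one_equiv]⟩
  invFun U := ⟨(U : Matrix n n ℂ).submatrix σ σ, by
    have h := Matrix.mem_unitaryGroup_iff.1 U.2
    rw [Matrix.star_eq_conjTranspose] at h
    rw [Matrix.mem_unitaryGroup_iff, Matrix.star_eq_conjTranspose, Matrix.conjTranspose_submatrix,
      Matrix.submatrix_mul_equiv, h, Matrix.submatrix_one_equiv]⟩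
  left_inv U := by ext i j; simp
  right_inv U := by ext i j; simp
  map_mul' U V := by
    ext i j
    simp [Matrix.mul_apply, ← Equiv.sum_comp σ.symm]

lemma continuous_reU {m n : Type} [Fintype m] [DecidableEq m] [Fintype n] [DecidableEq n]
    (σ : m ≃ n) : Continuous (reU σ) := by
  refine Continuous.subtype_mk ?_ _
  exact continuous_matrix fun i j => continuous_ent (σ.symm i) (σ.symm j)

lemma continuous_reU_symm {m n : Type} [Fintype m] [DecidableEq m] [Fintype n] [DecidableEq n]
    (σ : m ≃ n) : Continuous (reU σ).symm := by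
  refine Continuous.subtype_mk ?_ _
  exact continuous_matrix fun i j => continuous_ent (σ i) (σ j)

lemma integral_reU {m n : Type} [Fintype m] [DecidableEq m] [Fintype n] [DecidableEq n]
    (σ : m ≃ n) {f : UU n → ℂ} (hf : Continuous f) :
    ∫ U, f (reU σ U) ∂(haarU m) = ∫ V, f V ∂(haarU n) := by
  have h1 : ((haarU m).map (reU σ)).IsHaarMeasure :=
    (reU σ).isHaarMeasure_map (haarU m) (continuous_reU σ) (continuous_reU_symm σ)
  have h2 : IsProbabilityMeasure ((haarU m).map (reU σ)) :=
    Measure.isProbabilityMeasure_map (continuous_reU σ).aemeasurable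
  have h3 : (haarU m).map (reU σ) = haarU n := Measure.isHaarMeasure_eq_of_isProbabilityMeasure _ _
  rw [← h3, integral_map (continuous_reU σ).aemeasurable hf.aestronglyMeasurable]

theorem Tc_one (ψ : Fin 1 → ℂ) (hψ : ∑ x, ‖ψ x‖ ^ 2 = 1) : Tc d 1 t ψ = TH d t := by
  refine ext_single fun i j k l => ?_
  rw [Tc_single, TH_single]
  let σ : Fin d ≃ Fin d × Fin 1 := (Equiv.prodUnique (Fin d) (Fin 1)).symm
  rw [← integral_reU σ]
  · refine integral_congr_ae (Filter.Eventually.of_forall fun U => ?_)
    simp only
    refine Finset.prod_congr rfl fun s _ => ?_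
    have h1 : ∀ a b : Fin d, cv (V11219.MomentOp.vec ψ a) (b, 0) (reU σ U) = ent U b a * ψ 0 := by
      intro a b
      unfold cv
      rw [Matrix.mulVec, dotProduct, Fintype.sum_prod_type, Finset.sum_eq_single a]
      · simp [V11219.MomentOp.vec, reU, ent, σ]
      · intro c _ hc
        simp [V11219.MomentOp.vec, hc]
      · simp
    rw [Fintype.sum_unique]
    have h0 : (default : Fin 1) = 0 := rfl
    rw [h0, h1, h1, map_mul]
    have h2 : ψ 0 * conj (ψ 0) = 1 := by
      rw [Fintype.sum_unique, h0] at hψ
      rw [Complex.mul_conj, Complex.normSq_eq_norm_sq, hψ]; simp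
    calc ent U (k s) (i s) * ψ 0 * (conj (ent U (l s) (j s)) * conj (ψ 0))
        = ent U (k s) (i s) * conj (ent U (l s) (j s)) * (ψ 0 * conj (ψ 0)) := by ring
      _ = _ := by rw [h2, mul_one]
  · exact continuous_finsetProd _ fun s _ => continuous_finsetSum _ fun x _ =>
      (continuous_cv _ _).mul (Complex.continuous_conj.comp (continuous_cv _ _))

end Pool.Agent.U696.MO
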