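import Pool.Agent.U696.MO.Sphere2

open Matrix MeasureTheory
open scoped BigOperators ComplexConjugate

namespace Pool.Agent.U696.MO

open Pool.Agent.V11219.MomentOp

set_option linter.unusedSectionVars false

variable {n : Type} [Fintype n] [DecidableEq n]

section Emb

variable (J : Finset n)

/-- the columns outside `J` -/
abbrev Kt := {x : n // x ∉ J}

/-- embedding of the unitary group of the coordinates outside `J` -/
noncomputable def emb (u : UU (Kt J)) : UU n :=
  ⟨(Matrix.fromBlocks (u : Matrix (Kt J) (Kt J) ℂ) 0 0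
      (1 : Matrix {x : n // ¬ x ∉ J} {x : n // ¬ x ∉ J} ℂ)).submatrix
      (Equiv.sumCompl (fun x => x ∉ J)).symm (Equiv.sumCompl (fun x => x ∉ J)).symm, by
    rw [Matrix.mem_unitaryGroup_iff, Matrix.star_eq_conjTranspose, Matrix.conjTranspose_submatrix,
      Matrix.submatrix_mul_equiv, Matrix.fromBlocks_conjTranspose, Matrix.fromBlocks_multiply]
    have h := Matrix.mem_unitaryGroup_iff.1 u.2
    rw [Matrix.star_eq_conjTranspose] at h
    simp [h]⟩

lemma ent_emb_in (V : UU n) (u : UU (Kt J)) (x : n) (y : Kt J) :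
    ent (V * emb J u) x y = ∑ z : Kt J, ent V x z * ent u z y := by
  rw [ent_mul, ← Equiv.sum_comp (Equiv.sumCompl (fun x => x ∉ J)), Fintype.sum_sum_type]
  simp only [ent, emb, Matrix.submatrix_apply, Equiv.symm_apply_apply, Equiv.sumCompl_apply_inl,
    Equiv.sumCompl_apply_inr]
  have h : (Equiv.sumCompl (fun x => x ∉ J)).symm (y : n) = Sum.inl y := by
    rw [Equiv.symm_apply_eq]; simp
  rw [h]
  simp

lemma ent_emb_out (V : UU n) (u : UU (Kt J)) (x : n) {y : n} (hy : y ∈ J) :
    ent (V * emb J u) x y = ent V x y := by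
  rw [ent_mul, ← Equiv.sum_comp (Equiv.sumCompl (fun x => x ∉ J)), Fintype.sum_sum_type]
  simp only [ent, emb, Matrix.submatrix_apply, Equiv.symm_apply_apply, Equiv.sumCompl_apply_inl,
    Equiv.sumCompl_apply_inr]
  have h : (Equiv.sumCompl (fun x => x ∉ J)).symm (y : n) = Sum.inr ⟨y, by simpa using hy⟩ := by
    rw [Equiv.symm_apply_eq]; simp
  rw [h]
  simp [Matrix.one_apply]

lemma restr_isom (V : UU n) :
    (Matrix.of fun (x : n) (z : Kt J) => ent V x z)ᴴ *
      (Matrix.of fun (x : n) (z : Kt J) => ent V x z) = 1 := by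
  ext y z
  have h := congrFun (congrFun (Matrix.mem_unitaryGroup_iff'.1 V.2) y.1) z.1
  simp only [Matrix.mul_apply, Matrix.star_apply] at h
  simp only [Matrix.mul_apply, Matrix.conjTranspose_apply, Matrix.of_apply, ent]
  rw [h]
  simp [Matrix.one_apply, Subtype.ext_iff]

end Emb

lemma integral_swap' {κ : Type} [Fintype κ] [DecidableEq κ] (F : UU n → UU κ → ℝ)
    (hF : Continuous (Function.uncurry F)) :
    ∫ V, ∫ u, F V u ∂(haarU κ) ∂(haarU n) = ∫ u, ∫ V, F V u ∂(haarU n) ∂(haarU κ) := by
  refine integral_integral_swap ?_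
  exact hF.integrable_of_hasCompactSupport (HasCompactSupport.of_compactSpace _)

lemma integrable_inner {κ : Type} [Fintype κ] [DecidableEq κ] (F : UU n → UU κ → ℝ)
    (hF : Continuous (Function.uncurry F)) :
    Integrable (fun V => ∫ u, F V u ∂(haarU κ)) (haarU n) := by
  have h : Integrable (Function.uncurry F) ((haarU n).prod (haarU κ)) :=
    hF.integrable_of_hasCompactSupport (HasCompactSupport.of_compactSpace _)
  exact h.integral_prod_left

/-- merge of two partial words -/
def mrg {S : Type} (p : S → Prop) [DecidablePred p] (a : {s // p s} → n)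
    (b : {s // ¬ p s} → n) : S → n :=
  fun s => if h : p s then a ⟨s, h⟩ else b ⟨s, h⟩

lemma sum_split {S : Type} [Fintype S] [DecidableEq S] (p : S → Prop) [DecidablePred p]
    {E : Type*} [AddCommMonoid E] (f : (S → n) → E) :
    ∑ a, f a = ∑ a : {s // p s} → n, ∑ b : {s // ¬ p s} → n, f (mrg p a b) := by
  rw [← Equiv.sum_comp (Equiv.piEquivPiSubtypeProd p (fun _ => n)).symm, Fintype.sum_prod_type]
  rfl

lemma prod_split {S : Type} [Fintype S] [DecidableEq S] (p : S → Prop) [DecidablePred p]
    (f : S → ℂ) :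
    ∏ s, f s = (∏ s : {s // p s}, f s) * ∏ s : {s // ¬ p s}, f s := by
  rw [← Fintype.prod_subtype_mul_prod_subtype p f]

theorem peel (m : ℕ) : ∀ (S : Type) [Fintype S] [DecidableEq S] (w : S → ℕ)
    (_ : ∀ s, w s < m) (c : ℕ → n) (_ : Set.InjOn c (Set.Iio m)) (B : (S → n) → ℂ)
    (_ : ∀ π : Equiv.Perm S, w ∘ π = w → ∀ a, B (a ∘ π) = B a),
    ∫ V, ‖∑ a, B a * ∏ s, ent V (a s) (c (w s))‖ ^ 2 ∂(haarU n) ≤
      (∏ j ∈ Finset.range m, (((cnt w j).factorial : ℝ) /
        ((Fintype.card n - j).ascFactorial (cnt w j) : ℝ))) * ∑ a, ‖B a‖ ^ 2 := by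
  induction m with
  | zero =>
    intro S _ _ w hw c hc B hB
    have hS : IsEmpty S := ⟨fun s => absurd (hw s) (by omega)⟩
    simp
  | succ m ih =>
    intro S _ _ w hw c hc B hB
    let p : S → Prop := fun s => w s = m
    let J : Finset n := (Finset.range m).image c
    have hcm : c m ∉ J := by
      simp only [J, Finset.mem_image, Finset.mem_range, not_exists, not_and]
      intro j hj h
      have := hc (show j ∈ Set.Iio (m + 1) by simp; omega) (show m ∈ Set.Iio (m + 1) by simp) h
      omega
    let x0 : Kt J := ⟨c m, hcm⟩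
    have hcardJ : J.card = m := by
      rw [Finset.card_image_of_injOn, Finset.card_range]
      intro i hi j hj h
      simp only [Finset.coe_range, Set.mem_Iio] at hi hj
      exact hc (show i ∈ Set.Iio (m + 1) by simp; omega) (show j ∈ Set.Iio (m + 1) by simp; omega) h
    have hcardK : Fintype.card (Kt J) = Fintype.card n - m := by
      rw [Fintype.card_subtype, ← hcardJ, ← Finset.card_compl]
      congr 1
      ext x; simp
    -- the inner sums
    let b : UU n → ({s // p s} → n) → ℂ := fun V a2 =>
      ∑ a1 : {s // ¬ p s} → n, B (mrg p a2 a1) * ∏ s : {s // ¬ p s}, ent V (a1 s) (c (w s))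
    have hbc : ∀ a2, Continuous fun V => b V a2 := by
      intro a2
      refine continuous_finsetSum _ fun a1 _ => continuous_const.mul ?_
      exact continuous_finsetProd _ fun s _ => continuous_ent _ _
    let G : UU n → UU (Kt J) → ℝ := fun V u =>
      ‖∑ a2 : {s // p s} → n, b V a2 * ∏ s : {s // p s}, (∑ z : Kt J, ent V (a2 s) z * ent u z x0)‖ ^ 2
    have hGc : Continuous (Function.uncurry G) := by
      have : Continuous fun q : UU n × UU (Kt J) =>
          ‖∑ a2 : {s // p s} → n, b q.1 a2 *
            ∏ s : {s // p s}, (∑ z : Kt J, ent q.1 (a2 s) z * ent q.2 z x0)‖ ^ 2 := by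
        refine Continuous.pow (Continuous.norm ?_) 2
        refine continuous_finsetSum _ fun a2 _ => ((hbc a2).comp continuous_fst).mul ?_
        refine continuous_finsetProd _ fun s _ => continuous_finsetSum _ fun z _ => ?_
        exact ((continuous_ent _ _).comp continuous_fst).mul
          ((continuous_ent _ _).comp continuous_snd)
      exact this
    have hIc : Continuous fun V : UU n => ‖∑ a, B a * ∏ s, ent V (a s) (c (w s))‖ ^ 2 := by
      refine Continuous.pow (Continuous.norm ?_) 2
      exact continuous_finsetSum _ fun a _ => continuous_const.mul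
        (continuous_finsetProd _ fun s _ => continuous_ent _ _)
    have hG : ∀ V u, ‖∑ a, B a * ∏ s, ent (V * emb J u) (a s) (c (w s))‖ ^ 2 = G V u := by
      intro V u
      simp only [G]
      congr 2
      rw [sum_split p]
      refine Finset.sum_congr rfl fun a2 _ => ?_
      simp only [b]
      rw [Finset.sum_mul]
      refine Finset.sum_congr rfl fun a1 _ => ?_
      rw [prod_split p, mul_assoc, mul_comm (∏ s : {s // p s}, _)]
      congr 2
      · refine Finset.prod_congr rfl fun s _ => ?_
        have h1 : mrg p a2 a1 s = a1 s := by simp [mrg, s.2]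
        have h2 : c (w s) ∈ J := by
          have : w s < m := by
            have h3 := hw s; have h4 : w s ≠ m := s.2; omega
          exact Finset.mem_image_of_mem c (Finset.mem_range.2 this)
        rw [h1, ent_emb_out J V u _ h2]
      · refine Finset.prod_congr rfl fun s _ => ?_
        have h1 : mrg p a2 a1 s = a2 s := by simp [mrg, s.2]
        have h2 : w s = m := s.2
        rw [h1, h2]
        exact ent_emb_in J V u (a2 s) x0
    have h1 : ∫ V, ‖∑ a, B a * ∏ s, ent V (a s) (c (w s))‖ ^ 2 ∂(haarU n) =
        ∫ V, ∫ u, G V u ∂(haarU (Kt J)) ∂(haarU n) := by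
      rw [integral_swap' G hGc]
      have : ∀ u, ∫ V, G V u ∂(haarU n) =
          ∫ V, ‖∑ a, B a * ∏ s, ent V (a s) (c (w s))‖ ^ 2 ∂(haarU n) := by
        intro u
        rw [← integral_mul_right' (emb J u) hIc]
        simp only [hG]
      simp only [this]
      simp
    set Cm : ℝ := ((cnt w m).factorial : ℝ) /
        ((Fintype.card n - m).ascFactorial (cnt w m) : ℝ) with hCm
    have hcard2 : Fintype.card {s // p s} = cnt w m := by
      rw [Fintype.card_subtype]; rfl
    have h2 : ∀ V, ∫ u, G V u ∂(haarU (Kt J)) ≤ Cm * ∑ a2, ‖b V a2‖ ^ 2 := by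
      intro V
      have hsym : ∀ (π : Equiv.Perm {s // p s}) a2, b V (a2 ∘ π) = b V a2 := by
        intro π a2
        refine Finset.sum_congr rfl fun a1 _ => ?_
        have h3 : mrg p (a2 ∘ π) a1 = mrg p a2 a1 ∘ (Equiv.Perm.ofSubtype π) := by
          funext s
          by_cases hs : p s
          · have h4 : (Equiv.Perm.ofSubtype π) s = (π ⟨s, hs⟩ : S) :=
              Equiv.Perm.ofSubtype_apply_of_mem π hs
            simp only [mrg, Function.comp_apply, h4, dif_pos hs]
            rw [dif_pos (π ⟨s, hs⟩).2]
          · have h4 : (Equiv.Perm.ofSubtype π) s = s :=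
              Equiv.Perm.ofSubtype_apply_of_not_mem π hs
            simp only [mrg, Function.comp_apply, h4, dif_neg hs]
        rw [h3, hB]
        funext s
        by_cases hs : p s
        · have h4 : (Equiv.Perm.ofSubtype π) s = (π ⟨s, hs⟩ : S) :=
            Equiv.Perm.ofSubtype_apply_of_mem π hs
          have h5 : w (π ⟨s, hs⟩ : S) = m := (π ⟨s, hs⟩).2
          have h6 : w s = m := hs
          simp only [Function.comp_apply, h4, h5, h6]
        · have h4 : (Equiv.Perm.ofSubtype π) s = s :=
            Equiv.Perm.ofSubtype_apply_of_not_mem π hs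
          simp only [Function.comp_apply, h4]
      have h3 := sl x0 _ (restr_isom J V) (b V) hsym
      rw [hcardK, hcard2] at h3
      exact h3
    have h3 : ∀ a2, ∫ V, ‖b V a2‖ ^ 2 ∂(haarU n) ≤
        (∏ j ∈ Finset.range m, (((cnt w j).factorial : ℝ) /
          ((Fintype.card n - j).ascFactorial (cnt w j) : ℝ))) *
          ∑ a1 : {s // ¬ p s} → n, ‖B (mrg p a2 a1)‖ ^ 2 := by
      intro a2
      have h4 := ih {s // ¬ p s} (fun s => w s) (by
          intro s
          have h3 := hw s; have h4 : w s ≠ m := s.2; omega) c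
          (hc.mono (by intro x hx; simp at hx ⊢; omega)) (fun a1 => B (mrg p a2 a1)) (by
          intro π hπ a1
          have h3 : mrg p a2 (a1 ∘ π) = mrg p a2 a1 ∘ (Equiv.Perm.ofSubtype π) := by
            funext s
            by_cases hs : ¬ p s
            · have h4 : (Equiv.Perm.ofSubtype π) s = (π ⟨s, hs⟩ : S) :=
                Equiv.Perm.ofSubtype_apply_of_mem π hs
              simp only [mrg, Function.comp_apply, h4, dif_neg hs]
              rw [dif_neg (π ⟨s, hs⟩).2]
            · have h4 : (Equiv.Perm.ofSubtype π) s = s :=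
                Equiv.Perm.ofSubtype_apply_of_not_mem π hs
              have hs' : p s := not_not.1 hs
              simp only [mrg, Function.comp_apply, h4, dif_pos hs']
          rw [h3, hB]
          funext s
          by_cases hs : ¬ p s
          · have h4 : (Equiv.Perm.ofSubtype π) s = (π ⟨s, hs⟩ : S) :=
              Equiv.Perm.ofSubtype_apply_of_mem π hs
            have h5 : w (π ⟨s, hs⟩ : S) = w s := congrFun hπ ⟨s, hs⟩
            simp only [Function.comp_apply, h4, h5]
          · have h4 : (Equiv.Perm.ofSubtype π) s = s :=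
              Equiv.Perm.ofSubtype_apply_of_not_mem π hs
            simp only [Function.comp_apply, h4])
      have h5 : ∀ j ∈ Finset.range m, cnt (fun s : {s // ¬ p s} => w s) j = cnt w j := by
        intro j hj
        have hj' : j < m := Finset.mem_range.1 hj
        unfold cnt
        refine Finset.card_bij (fun s _ => (s : S)) ?_ ?_ ?_
        · intro s hs; simpa using hs
        · intro a _ b _ h; exact Subtype.ext h
        · intro s hs
          simp only [Finset.mem_filter, Finset.mem_univ, true_and] at hs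
          exact ⟨⟨s, by simp only [p]; omega⟩, by simpa using hs, rfl⟩
      have h6 : (∏ j ∈ Finset.range m, (((cnt (fun s : {s // ¬ p s} => w s) j).factorial : ℝ) /
          ((Fintype.card n - j).ascFactorial (cnt (fun s : {s // ¬ p s} => w s) j) : ℝ))) =
          (∏ j ∈ Finset.range m, (((cnt w j).factorial : ℝ) /
          ((Fintype.card n - j).ascFactorial (cnt w j) : ℝ))) :=
        Finset.prod_congr rfl fun j hj => by rw [h5 j hj]
      rw [h6] at h4
      exact h4
    have hCm0 : 0 ≤ Cm := by rw [hCm]; positivity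
    calc ∫ V, ‖∑ a, B a * ∏ s, ent V (a s) (c (w s))‖ ^ 2 ∂(haarU n)
        = ∫ V, ∫ u, G V u ∂(haarU (Kt J)) ∂(haarU n) := h1
      _ ≤ ∫ V, Cm * ∑ a2, ‖b V a2‖ ^ 2 ∂(haarU n) := by
          refine integral_mono (integrable_inner G hGc) ?_ h2
          exact integrable_cont (continuous_const.mul (continuous_finsetSum _ fun a2 _ =>
            ((hbc a2).norm.pow 2)))
      _ = Cm * ∑ a2, ∫ V, ‖b V a2‖ ^ 2 ∂(haarU n) := by
          rw [integral_const_mul, integral_finsetSum]
          intro a2 _
          exact integrable_cont ((hbc a2).norm.pow 2)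
      _ ≤ Cm * ∑ a2, ((∏ j ∈ Finset.range m, (((cnt w j).factorial : ℝ) /
          ((Fintype.card n - j).ascFactorial (cnt w j) : ℝ))) *
          ∑ a1 : {s // ¬ p s} → n, ‖B (mrg p a2 a1)‖ ^ 2) := by
          exact mul_le_mul_of_nonneg_left (Finset.sum_le_sum fun a2 _ => h3 a2) hCm0
      _ = _ := by
          rw [← Finset.mul_sum, Finset.prod_range_succ, ← sum_split p (fun a => ‖B a‖ ^ 2)]
          ring

end Pool.Agent.U696.MO
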