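import Pool.Agent.U696.MO.Basic

open Matrix MeasureTheory
open scoped BigOperators ComplexConjugate

namespace Pool.Agent.U696.MO

open Pool.Agent.V11219.MomentOp

variable {n : Type} [Fintype n] [DecidableEq n]

lemma norm_pow_eq (z : ℂ) (m : ℕ) : ((‖z‖ ^ (2 * m) : ℝ) : ℂ) = z ^ m * conj z ^ m := by
  rw [← mul_pow, Complex.mul_conj, Complex.normSq_eq_norm_sq, pow_mul]; push_cast; ring

lemma rot_id {a b : n} (c0 : n) (hab : a ≠ b) (m : ℕ) (R : UU n → ℝ) (hR : Continuous R)
    (hR1 : ∀ {c s : ℝ} (h : c ^ 2 + s ^ 2 = 1) (V : UU n), R (rot hab h * V) = R V)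
    (hR2 : ∀ (z : ℂ) (hz : z * conj z = 1) (V : UU n), R (ph a z hz * V) = R V)
    {c s : ℝ} (h : c ^ 2 + s ^ 2 = 1) :
    ∫ V, ‖ent V a c0‖ ^ (2 * m) * R V ∂(haarU n) =
      ∑ k ∈ Finset.range (m + 1), (m.choose k : ℝ) ^ 2 * (c ^ 2) ^ k * (s ^ 2) ^ (m - k) *
        ∫ V, ‖ent V a c0‖ ^ (2 * k) * ‖ent V b c0‖ ^ (2 * (m - k)) * R V ∂(haarU n) := by
  have hRc : Continuous fun V => (R V : ℂ) := Complex.continuous_ofReal.comp hR
  have hcA := continuous_ent (n := n) a c0
  have hcB := continuous_ent (n := n) b c0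
  set g : ℕ → ℕ → ℂ := fun k l => ∫ V, (ent V a c0) ^ k * (ent V b c0) ^ (m - k) *
    (conj (ent V a c0) ^ l * conj (ent V b c0) ^ (m - l)) * (R V : ℂ) ∂(haarU n) with hg
  have hg0 : ∀ k l, k ≠ l → g k l = 0 := by
    intro k l hkl
    obtain ⟨z, hz, hz2⟩ := exists_phase hkl
    have h1 := integral_mul_left' (ph a z hz) (fun V : UU n => (ent V a c0) ^ k *
      (ent V b c0) ^ (m - k) * (conj (ent V a c0) ^ l * conj (ent V b c0) ^ (m - l)) *
      (R V : ℂ))
    simp only [ent_ph_mul, hR2, if_true, if_neg hab.symm, one_mul] at h1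
    have h2 : ∀ V : UU n, (z * ent V a c0) ^ k * ent V b c0 ^ (m - k) *
        (conj (z * ent V a c0) ^ l * conj (ent V b c0) ^ (m - l)) * (R V : ℂ) =
        (z ^ k * conj z ^ l) * ((ent V a c0) ^ k * (ent V b c0) ^ (m - k) *
        (conj (ent V a c0) ^ l * conj (ent V b c0) ^ (m - l)) * (R V : ℂ)) := by
      intro V; rw [map_mul]; ring
    simp only [h2] at h1
    rw [integral_const_mul] at h1
    have h3 : (z ^ k * conj z ^ l - 1) * g k l = 0 := by
      rw [sub_mul, one_mul, sub_eq_zero]; exact h1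
    rcases mul_eq_zero.1 h3 with h4 | h4
    · exact absurd (sub_eq_zero.1 h4) hz2
    · exact h4
  have hgk : ∀ k, g k k = ((∫ V, ‖ent V a c0‖ ^ (2 * k) * ‖ent V b c0‖ ^ (2 * (m - k)) * R V
      ∂(haarU n) : ℝ) : ℂ) := by
    intro k
    rw [← integral_complex_ofReal, hg]
    refine integral_congr_ae (Filter.Eventually.of_forall fun V => ?_)
    simp only [Complex.ofReal_mul]
    rw [norm_pow_eq, norm_pow_eq]; ring
  have e1 : ((∫ V, ‖ent V a c0‖ ^ (2 * m) * R V ∂(haarU n) : ℝ) : ℂ) =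
      ∫ V, (ent V a c0) ^ m * conj (ent V a c0) ^ m * (R V : ℂ) ∂(haarU n) := by
    rw [← integral_complex_ofReal]
    refine integral_congr_ae (Filter.Eventually.of_forall fun V => ?_)
    simp only [Complex.ofReal_mul]
    rw [norm_pow_eq]
  have e2 : ∫ V, (ent V a c0) ^ m * conj (ent V a c0) ^ m * (R V : ℂ) ∂(haarU n) =
      ∫ V, (c * ent V a c0 + s * ent V b c0) ^ m * conj (c * ent V a c0 + s * ent V b c0) ^ m *
        (R V : ℂ) ∂(haarU n) := by
    have h1 := integral_mul_left' (rot hab h) (fun V : UU n => (ent V a c0) ^ m *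
      conj (ent V a c0) ^ m * (R V : ℂ))
    simp only [ent_rot_a, hR1] at h1
    exact h1.symm
  have e3 : ∀ V : UU n, (c * ent V a c0 + s * ent V b c0) ^ m *
      conj (c * ent V a c0 + s * ent V b c0) ^ m * (R V : ℂ) =
      ∑ k ∈ Finset.range (m + 1), ∑ l ∈ Finset.range (m + 1),
        ((m.choose k : ℂ) * (m.choose l : ℂ) * (c : ℂ) ^ k * (s : ℂ) ^ (m - k) * (c : ℂ) ^ l *
          (s : ℂ) ^ (m - l)) * ((ent V a c0) ^ k * (ent V b c0) ^ (m - k) *
        (conj (ent V a c0) ^ l * conj (ent V b c0) ^ (m - l)) * (R V : ℂ)) := by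
    intro V
    rw [map_add, map_mul, map_mul, Complex.conj_ofReal, Complex.conj_ofReal, add_pow, add_pow,
      Finset.sum_mul_sum, Finset.sum_mul]
    refine Finset.sum_congr rfl fun k _ => ?_
    rw [Finset.sum_mul]
    refine Finset.sum_congr rfl fun l _ => ?_
    rw [mul_pow, mul_pow, mul_pow, mul_pow]; ring
  have e4 : ∫ V, (c * ent V a c0 + s * ent V b c0) ^ m *
      conj (c * ent V a c0 + s * ent V b c0) ^ m * (R V : ℂ) ∂(haarU n) =
      ∑ k ∈ Finset.range (m + 1), ∑ l ∈ Finset.range (m + 1),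
        ((m.choose k : ℂ) * (m.choose l : ℂ) * (c : ℂ) ^ k * (s : ℂ) ^ (m - k) * (c : ℂ) ^ l *
          (s : ℂ) ^ (m - l)) * g k l := by
    simp only [e3]
    rw [integral_finsetSum]
    · refine Finset.sum_congr rfl fun k _ => ?_
      rw [integral_finsetSum]
      · refine Finset.sum_congr rfl fun l _ => ?_
        rw [integral_const_mul]
      · intro l _
        exact integrable_cont (by fun_prop)
    · intro k _
      exact integrable_cont (by fun_prop)
  have e5 : ∀ k ∈ Finset.range (m + 1), ∑ l ∈ Finset.range (m + 1),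
        ((m.choose k : ℂ) * (m.choose l : ℂ) * (c : ℂ) ^ k * (s : ℂ) ^ (m - k) * (c : ℂ) ^ l *
          (s : ℂ) ^ (m - l)) * g k l =
        (m.choose k : ℂ) ^ 2 * ((c : ℂ) ^ 2) ^ k * ((s : ℂ) ^ 2) ^ (m - k) * g k k := by
    intro k hk
    rw [Finset.sum_eq_single k]
    · ring
    · intro l _ hl
      rw [hg0 k l (Ne.symm hl), mul_zero]
    · intro h; exact absurd hk h
  have key : ((∫ V, ‖ent V a c0‖ ^ (2 * m) * R V ∂(haarU n) : ℝ) : ℂ) =
      ((∑ k ∈ Finset.range (m + 1), (m.choose k : ℝ) ^ 2 * (c ^ 2) ^ k * (s ^ 2) ^ (m - k) *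
        ∫ V, ‖ent V a c0‖ ^ (2 * k) * ‖ent V b c0‖ ^ (2 * (m - k)) * R V ∂(haarU n) : ℝ) : ℂ) := by
    rw [e1, e2, e4, Finset.sum_congr rfl e5]
    push_cast
    refine Finset.sum_congr rfl fun k _ => ?_
    rw [hgk]
  exact_mod_cast key

lemma transfer_f {a b : n} (c0 : n) (hab : a ≠ b) (m : ℕ) (R : UU n → ℝ) (hR : Continuous R)
    (hR1 : ∀ {c s : ℝ} (h : c ^ 2 + s ^ 2 = 1) (V : UU n), R (rot hab h * V) = R V)
    (hR2 : ∀ (z : ℂ) (hz : z * conj z = 1) (V : UU n), R (ph a z hz * V) = R V) {k : ℕ}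
    (hk : k ≤ m) :
    (m.choose k : ℝ) *
        ∫ V, ‖ent V a c0‖ ^ (2 * k) * ‖ent V b c0‖ ^ (2 * (m - k)) * R V ∂(haarU n) =
      ∫ V, ‖ent V a c0‖ ^ (2 * m) * R V ∂(haarU n) := by
  set f : ℕ → ℝ := fun k => ∫ V, ‖ent V a c0‖ ^ (2 * k) * ‖ent V b c0‖ ^ (2 * (m - k)) * R V
    ∂(haarU n) with hf
  set F : ℝ := ∫ V, ‖ent V a c0‖ ^ (2 * m) * R V ∂(haarU n) with hF
  let P : Polynomial ℝ := ∑ k ∈ Finset.range (m + 1),
    Polynomial.C ((m.choose k : ℝ) ^ 2 * f k) * Polynomial.X ^ k
  let Q : Polynomial ℝ := Polynomial.C F * (1 + Polynomial.X) ^ m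
  have hPQ : P = Q := by
    refine Polynomial.eq_of_infinite_eval_eq P Q (Set.Infinite.mono (s := Set.Ioi (0 : ℝ)) ?_
      (Set.Ioi_infinite 0))
    intro y hy
    have hy0 : (0 : ℝ) < y := hy
    have hy1 : (0 : ℝ) < 1 + y := by linarith
    have hc : (Real.sqrt (y / (1 + y))) ^ 2 = y / (1 + y) := Real.sq_sqrt (by positivity)
    have hs : (Real.sqrt (1 / (1 + y))) ^ 2 = 1 / (1 + y) := Real.sq_sqrt (by positivity)
    have hcs : (Real.sqrt (y / (1 + y))) ^ 2 + (Real.sqrt (1 / (1 + y))) ^ 2 = 1 := by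
      rw [hc, hs]; field_simp; ring
    have h1 := rot_id c0 hab m R hR hR1 hR2 hcs
    rw [hc, hs] at h1
    change P.eval y = Q.eval y
    simp only [P, Q, Polynomial.eval_finsetSum, Polynomial.eval_mul, Polynomial.eval_C,
      Polynomial.eval_pow, Polynomial.eval_X, Polynomial.eval_add, Polynomial.eval_one]
    rw [hF, h1, Finset.sum_mul]
    refine Finset.sum_congr rfl fun k hk => ?_
    have hk' : k ≤ m := by simpa [Nat.lt_succ_iff] using hk
    rw [hf]
    obtain ⟨l, rfl⟩ := Nat.exists_eq_add_of_le hk'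
    have : k + l - k = l := by omega
    simp only [this]
    rw [div_pow, div_pow, pow_add, one_pow]
    field_simp
  have hcoef := congrArg (fun p => Polynomial.coeff p k) hPQ
  simp only [P, Q, Polynomial.finsetSum_coeff, Polynomial.coeff_C_mul, Polynomial.coeff_X_pow,
    Polynomial.coeff_one_add_X_pow] at hcoef
  rw [Finset.sum_eq_single k] at hcoef
  · simp only [if_true, mul_one] at hcoef
    have hch : (m.choose k : ℝ) ≠ 0 := by exact_mod_cast (Nat.choose_pos hk).ne'
    have : (m.choose k : ℝ) * ((m.choose k : ℝ) * f k) = (m.choose k : ℝ) * F := by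
      rw [← mul_assoc, ← pow_two, hcoef]; ring
    exact mul_left_cancel₀ hch this
  · intro l _ hl
    simp [hl.symm]
  · intro h
    exact absurd (Finset.mem_range.2 (by omega)) h

/-- mixed moments of one column -/
noncomputable def Mo (c : n) (α : n → ℕ) : ℝ := ∫ V, ∏ v, ‖ent V v c‖ ^ (2 * α v) ∂(haarU n)

lemma Mo_transfer (c0 : n) (α : n → ℕ) (a b : n) :
    ((α b : ℝ) + 1) * Mo c0 (Function.update α a (α a + 1)) =
      ((α a : ℝ) + 1) * Mo c0 (Function.update α b (α b + 1)) := by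
  by_cases hab : a = b
  · subst hab; rfl
  set R : UU n → ℝ := fun V => ∏ v ∈ (Finset.univ.erase a).erase b, ‖ent V v c0‖ ^ (2 * α v)
    with hR
  have hRc : Continuous R := by
    rw [hR]
    exact continuous_finsetProd _ fun v _ => ((continuous_ent v c0).norm.pow _)
  have hR1 : ∀ {c s : ℝ} (h : c ^ 2 + s ^ 2 = 1) (V : UU n), R (rot hab h * V) = R V := by
    intro c s h V
    refine Finset.prod_congr rfl fun v hv => ?_
    simp only [Finset.mem_erase] at hv
    rw [ent_rot_other hab h V v c0 hv.2.1 hv.1]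
  have hR2 : ∀ (z : ℂ) (hz : z * conj z = 1) (V : UU n), R (ph a z hz * V) = R V := by
    intro z hz V
    refine Finset.prod_congr rfl fun v hv => ?_
    simp only [Finset.mem_erase] at hv
    rw [ent_ph_mul, if_neg hv.2.1, one_mul]
  have hsplit : ∀ (β : n → ℕ) (V : UU n), (∀ v, v ≠ a → v ≠ b → β v = α v) →
      ∏ v, ‖ent V v c0‖ ^ (2 * β v) = ‖ent V a c0‖ ^ (2 * β a) * ‖ent V b c0‖ ^ (2 * β b) *
        R V := by
    intro β V hβ
    rw [← Finset.mul_prod_erase Finset.univ _ (Finset.mem_univ a),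
      ← Finset.mul_prod_erase (Finset.univ.erase a) _
        (Finset.mem_erase.2 ⟨fun h => hab h.symm, Finset.mem_univ b⟩), ← mul_assoc]
    congr 1
    refine Finset.prod_congr rfl fun v hv => ?_
    simp only [Finset.mem_erase] at hv
    rw [hβ v hv.2.1 hv.1]
  set m := α a + α b + 1 with hm
  have h1 := transfer_f c0 hab m R hRc hR1 hR2 (k := α a + 1) (by omega)
  have h2 := transfer_f c0 hab m R hRc hR1 hR2 (k := α a) (by omega)
  have hm1 : m - (α a + 1) = α b := by omega
  have hm2 : m - α a = α b + 1 := by omega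
  rw [hm1] at h1
  rw [hm2] at h2
  have hA : Mo c0 (Function.update α a (α a + 1)) =
      ∫ V, ‖ent V a c0‖ ^ (2 * (α a + 1)) * ‖ent V b c0‖ ^ (2 * (α b)) * R V ∂(haarU n) := by
    unfold Mo
    refine integral_congr_ae (Filter.Eventually.of_forall fun V => ?_)
    simp only
    rw [hsplit _ V (fun v h1 h2 => Function.update_of_ne h1 _ _), Function.update_self,
      Function.update_of_ne (fun h => hab h.symm)]
  have hB : Mo c0 (Function.update α b (α b + 1)) =
      ∫ V, ‖ent V a c0‖ ^ (2 * (α a)) * ‖ent V b c0‖ ^ (2 * (α b + 1)) * R V ∂(haarU n) := by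
    unfold Mo
    refine integral_congr_ae (Filter.Eventually.of_forall fun V => ?_)
    simp only
    rw [hsplit _ V (fun v h1 h2 => Function.update_of_ne h2 _ _), Function.update_self,
      Function.update_of_ne hab]
  rw [← hA] at h1
  rw [← hB] at h2
  have h3 := Nat.choose_succ_right_eq m (α a)
  rw [hm2] at h3
  have h3' : (m.choose (α a + 1) : ℝ) * ((α a : ℝ) + 1) = (m.choose (α a) : ℝ) * ((α b : ℝ) + 1) := by
    exact_mod_cast h3
  have hpos : (0 : ℝ) < (m.choose (α a + 1) : ℝ) := by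
    exact_mod_cast Nat.choose_pos (by omega)
  have h4 : (m.choose (α a + 1) : ℝ) * (((α b : ℝ) + 1) *
      Mo c0 (Function.update α a (α a + 1))) = (m.choose (α a + 1) : ℝ) * (((α a : ℝ) + 1) *
      Mo c0 (Function.update α b (α b + 1))) := by
    calc (m.choose (α a + 1) : ℝ) * (((α b : ℝ) + 1) * Mo c0 (Function.update α a (α a + 1)))
        = ((α b : ℝ) + 1) * ((m.choose (α a + 1) : ℝ) * Mo c0 (Function.update α a (α a + 1))) := by
          ring
      _ = ((α b : ℝ) + 1) * ((m.choose (α a) : ℝ) * Mo c0 (Function.update α b (α b + 1))) := by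
          rw [h1, h2]
      _ = ((m.choose (α a) : ℝ) * ((α b : ℝ) + 1)) * Mo c0 (Function.update α b (α b + 1)) := by
          ring
      _ = _ := by rw [← h3']; ring
  exact mul_left_cancel₀ hpos.ne' h4

lemma Mo_sum (c0 : n) (α : n → ℕ) :
    ∑ a, Mo c0 (Function.update α a (α a + 1)) = Mo c0 α := by
  unfold Mo
  rw [← integral_finsetSum]
  · refine integral_congr_ae (Filter.Eventually.of_forall fun V => ?_)
    simp only
    have : ∀ a : n, ∏ v, ‖ent V v c0‖ ^ (2 * (Function.update α a (α a + 1)) v) =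
        ‖ent V a c0‖ ^ 2 * ∏ v, ‖ent V v c0‖ ^ (2 * α v) := by
      intro a
      rw [← Finset.mul_prod_erase Finset.univ _ (Finset.mem_univ a),
        ← Finset.mul_prod_erase Finset.univ (fun v => ‖ent V v c0‖ ^ (2 * α v))
          (Finset.mem_univ a), Function.update_self, ← mul_assoc]
      congr 1
      · rw [← pow_add]; congr 1; ring
      · refine Finset.prod_congr rfl fun v hv => ?_
        rw [Function.update_of_ne (Finset.ne_of_mem_erase hv)]
    simp only [this]
    rw [← Finset.sum_mul, sum_ent_sq, one_mul]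
  · intro a _
    exact integrable_cont (continuous_finsetProd _ fun v _ => ((continuous_ent v c0).norm.pow _))

lemma Mo_step (c0 : n) (α : n → ℕ) (a : n) :
    ((Fintype.card n : ℝ) + ∑ v, (α v : ℝ)) * Mo c0 (Function.update α a (α a + 1)) =
      ((α a : ℝ) + 1) * Mo c0 α := by
  rw [← Mo_sum c0 α, Finset.mul_sum]
  rw [Finset.sum_congr rfl fun b _ => (Mo_transfer c0 α a b).symm, ← Finset.sum_mul]
  congr 1
  rw [Finset.sum_add_distrib]
  simp [add_comm]

lemma Mo_eq (c0 : n) (m : ℕ) : ∀ (α : n → ℕ), ∑ v, α v = m →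
    ((Fintype.card n).ascFactorial m : ℝ) * Mo c0 α = ∏ v, ((α v).factorial : ℝ) := by
  induction m with
  | zero =>
    intro α hα
    have h0 : ∀ v, α v = 0 := by
      intro v
      have := (Finset.sum_eq_zero_iff.1 hα) v (Finset.mem_univ v)
      exact this
    simp [Mo, h0]
  | succ m ih =>
    intro α hα
    obtain ⟨a, ha⟩ : ∃ a, α a ≠ 0 := by
      by_contra hcon
      push Not at hcon
      simp [hcon] at hα
    set β := Function.update α a (α a - 1) with hβ
    have hβa : β a = α a - 1 := by simp [hβ]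
    have hαβ : α = Function.update β a (β a + 1) := by
      ext v
      by_cases hv : v = a
      · subst hv; simp [hβ]; omega
      · simp [hβ, hv]
    have hsum : ∑ v, β v = m := by
      have h1 := Finset.add_sum_erase Finset.univ α (Finset.mem_univ a)
      have h2 := Finset.add_sum_erase Finset.univ β (Finset.mem_univ a)
      have h3 : ∑ x ∈ Finset.univ.erase a, β x = ∑ x ∈ Finset.univ.erase a, α x :=
        Finset.sum_congr rfl fun v hv => by
          rw [hβ, Function.update_of_ne (Finset.ne_of_mem_erase hv)]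
      omega
    have h1 := Mo_step c0 β a
    rw [← hαβ] at h1
    have h2 := ih β hsum
    have h3 : ∏ v, ((α v).factorial : ℝ) = ((β a : ℝ) + 1) * ∏ v, ((β v).factorial : ℝ) := by
      rw [← Finset.mul_prod_erase Finset.univ _ (Finset.mem_univ a),
        ← Finset.mul_prod_erase Finset.univ (fun v => ((β v).factorial : ℝ))
          (Finset.mem_univ a), ← mul_assoc]
      congr 1
      · have : α a = β a + 1 := by omega
        rw [this, Nat.factorial_succ]; push_cast; ring
      · refine Finset.prod_congr rfl fun v hv => ?_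
        rw [hβ, Function.update_of_ne (Finset.ne_of_mem_erase hv)]
    have hs : ∑ v, (β v : ℝ) = m := by exact_mod_cast hsum
    rw [hs] at h1
    rw [h3, ← h2, Nat.ascFactorial_succ]
    push_cast
    calc ((Fintype.card n : ℝ) + m) * ((Fintype.card n).ascFactorial m : ℝ) * Mo c0 α
        = ((Fintype.card n).ascFactorial m : ℝ) * (((Fintype.card n : ℝ) + m) * Mo c0 α) := by ring
      _ = _ := by rw [h1]; ring

end Pool.Agent.U696.MO
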