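import Pool.Agent.U696.MO.Sphere

open Matrix MeasureTheory
open scoped BigOperators ComplexConjugate

namespace Pool.Agent.U696.MO

open Pool.Agent.V11219.MomentOp

set_option linter.unusedSectionVars false

variable {S : Type} [Fintype S] [DecidableEq S]
variable {κ : Type} [Fintype κ] [DecidableEq κ]
variable {n : Type} [Fintype n] [DecidableEq n]

/-- letter counts -/
def cnt (y : S → κ) (v : κ) : ℕ := (Finset.univ.filter fun s => y s = v).card

/-- number of rearrangements -/
def nP (y z : S → κ) : ℕ := ∑ π : Equiv.Perm S, if y ∘ π = z then 1 else 0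

lemma prod_eq_cnt (y : S → κ) (f : κ → ℂ) : ∏ s, f (y s) = ∏ v, f v ^ cnt y v := by
  rw [← Finset.prod_fiberwise' Finset.univ y f]
  refine Finset.prod_congr rfl fun v _ => ?_
  rw [Finset.prod_const]; rfl

lemma sum_cnt (y : S → κ) : ∑ v, cnt y v = Fintype.card S := by
  unfold cnt
  rw [← Finset.card_eq_sum_card_fiberwise (fun _ _ => Finset.mem_univ _)]; rfl

lemma cnt_comp (y : S → κ) (π : Equiv.Perm S) (v : κ) : cnt (y ∘ π) v = cnt y v := by
  unfold cnt
  refine Finset.card_bij (fun s _ => π s) ?_ ?_ ?_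
  · intro s hs; simpa using hs
  · intro a _ b _ h; exact π.injective h
  · intro b hb; exact ⟨π.symm b, by simpa using hb, by simp⟩

lemma exists_perm_of_cnt (y z : S → κ) (h : ∀ v, cnt y v = cnt z v) :
    ∃ π : Equiv.Perm S, y ∘ π = z := by
  have h' : ∀ v, Fintype.card {s // z s = v} = Fintype.card {s // y s = v} := by
    intro v
    rw [Fintype.card_subtype, Fintype.card_subtype]
    exact (h v).symm
  let e : ∀ v, {s // z s = v} ≃ {s // y s = v} := fun v => Fintype.equivOfCardEq (h' v)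
  refine ⟨(Equiv.sigmaFiberEquiv z).symm.trans ((Equiv.sigmaCongrRight e).trans
    (Equiv.sigmaFiberEquiv y)), ?_⟩
  funext s
  exact (e (z s) ⟨s, rfl⟩).2

lemma nP_eq (y z : S → κ) (h : ∀ v, cnt y v = cnt z v) : nP y z = ∏ v, (cnt y v).factorial := by
  obtain ⟨π0, hπ0⟩ := exists_perm_of_cnt y z h
  have h1 := DomMulAct.stabilizer_card (α := S) (ι := κ) y
  have h2 : ∀ v, Fintype.card {s // y s = v} = cnt y v := by
    intro v; rw [Fintype.card_subtype]; rfl
  simp only [h2] at h1
  rw [← h1, Fintype.card_subtype, Finset.card_filter]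
  unfold nP
  rw [← Equiv.sum_comp (Equiv.mulRight π0)]
  refine Finset.sum_congr rfl fun g _ => ?_
  have : (y ∘ ⇑((Equiv.mulRight π0) g) = z) ↔ (y ∘ ⇑g = y) := by
    constructor
    · intro h
      have : (y ∘ ⇑g) ∘ π0 = y ∘ π0 := by rw [hπ0]; exact h
      exact (π0.surjective.injective_comp_right) this
    · intro h
      calc y ∘ ⇑((Equiv.mulRight π0) g) = (y ∘ ⇑g) ∘ π0 := rfl
        _ = z := by rw [h, hπ0]
  simp only [this]

lemma nP_zero (y z : S → κ) {v : κ} (h : cnt y v ≠ cnt z v) : nP y z = 0 := by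
  unfold nP
  refine Finset.sum_eq_zero fun π _ => ?_
  rw [if_neg]
  intro h2
  exact h (by rw [← h2, cnt_comp])

lemma continuous_prod_ent (c : κ) (y : S → κ) :
    Continuous fun V : UU κ => ∏ s, ent V (y s) c :=
  continuous_finsetProd _ fun s _ => continuous_ent _ _

lemma sm (c : κ) (y z : S → κ) :
    ∫ V, (∏ s, ent V (y s) c) * conj (∏ s, ent V (z s) c) ∂(haarU κ) =
      (nP y z : ℂ) / ((Fintype.card κ).ascFactorial (Fintype.card S) : ℂ) := by
  by_cases h : ∀ v, cnt y v = cnt z v
  · rw [nP_eq y z h]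
    have h1 : ∀ V : UU κ, (∏ s, ent V (y s) c) * conj (∏ s, ent V (z s) c) =
        ((∏ v, ‖ent V v c‖ ^ (2 * cnt y v) : ℝ) : ℂ) := by
      intro V
      rw [prod_eq_cnt y (fun v => ent V v c), prod_eq_cnt z (fun v => ent V v c), map_prod,
        ← Finset.prod_mul_distrib, Complex.ofReal_prod]
      refine Finset.prod_congr rfl fun v _ => ?_
      rw [norm_pow_eq, ← h v, map_pow]
    simp only [h1]
    rw [integral_complex_ofReal]
    have h2 := Mo_eq c (Fintype.card S) (cnt y) (sum_cnt y)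
    have hpos : ((Fintype.card κ).ascFactorial (Fintype.card S) : ℝ) ≠ 0 := by
      have : Nonempty κ := ⟨c⟩
      have h0 : 0 < Fintype.card κ := Fintype.card_pos
      obtain ⟨m, hm⟩ := Nat.exists_eq_succ_of_ne_zero h0.ne'
      rw [hm]
      exact_mod_cast (Nat.ascFactorial_pos _ _).ne'
    have h3 : Mo c (cnt y) = (∏ v, ((cnt y v).factorial : ℝ)) /
        ((Fintype.card κ).ascFactorial (Fintype.card S) : ℝ) := by
      rw [eq_div_iff hpos, ← h2, mul_comm]
    change ((Mo c (cnt y) : ℝ) : ℂ) = _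
    rw [h3]
    push_cast
    rfl
  · push Not at h
    obtain ⟨v, hv⟩ := h
    rw [nP_zero y z hv]
    obtain ⟨w, hw, hw2⟩ := exists_phase hv
    have h1 := integral_mul_left' (ph v w hw) (fun V : UU κ =>
      (∏ s, ent V (y s) c) * conj (∏ s, ent V (z s) c))
    have h2 : ∀ (y : S → κ) (V : UU κ), ∏ s, ent (ph v w hw * V) (y s) c =
        w ^ cnt y v * ∏ s, ent V (y s) c := by
      intro y V
      simp only [ent_ph_mul]
      rw [Finset.prod_mul_distrib]
      congr 1
      rw [prod_eq_cnt y (fun x => if x = v then w else 1), Finset.prod_eq_single v]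
      · simp
      · intro b _ hb; simp [hb]
      · simp
    simp only [h2] at h1
    have h3 : ∀ V : UU κ, w ^ cnt y v * (∏ s, ent V (y s) c) *
        conj (w ^ cnt z v * ∏ s, ent V (z s) c) = (w ^ cnt y v * conj w ^ cnt z v) *
        ((∏ s, ent V (y s) c) * conj (∏ s, ent V (z s) c)) := by
      intro V; rw [map_mul, map_pow]; ring
    simp only [h3] at h1
    rw [integral_const_mul] at h1
    have h4 : (w ^ cnt y v * conj w ^ cnt z v - 1) * (∫ V, (∏ s, ent V (y s) c) *
        conj (∏ s, ent V (z s) c) ∂(haarU κ)) = 0 := by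
      rw [sub_mul, one_mul, sub_eq_zero]; exact h1
    rcases mul_eq_zero.1 h4 with h5 | h5
    · exact absurd (sub_eq_zero.1 h5) hw2
    · rw [h5]; simp

lemma int_normsq_sum {ι : Type*} [Fintype ι] (F : ι → UU n → ℂ) (hF : ∀ i, Continuous (F i)) :
    ((∫ V, ‖∑ i, F i V‖ ^ 2 ∂(haarU n) : ℝ) : ℂ) =
      ∑ i, ∑ j, ∫ V, F i V * conj (F j V) ∂(haarU n) := by
  rw [← integral_complex_ofReal]
  have h1 : ∀ V : UU n, ((‖∑ i, F i V‖ ^ 2 : ℝ) : ℂ) = ∑ i, ∑ j, F i V * conj (F j V) := by
    intro V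
    have := norm_pow_eq (∑ i, F i V) 1
    rw [mul_one, pow_one, pow_one] at this
    rw [this, map_sum, Finset.sum_mul_sum]
  simp only [h1]
  rw [integral_finsetSum]
  · refine Finset.sum_congr rfl fun i _ => ?_
    rw [integral_finsetSum]
    intro j _
    exact integrable_cont ((hF i).mul (Complex.continuous_conj.comp (hF j)))
  · intro i _
    exact integrable_cont (continuous_finsetSum _ fun j _ =>
      (hF i).mul (Complex.continuous_conj.comp (hF j)))

/-- precomposition with a permutation -/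
def pre (π : Equiv.Perm S) : (S → κ) ≃ (S → κ) where
  toFun a := a ∘ π
  invFun a := a ∘ π.symm
  left_inv a := by ext s; simp
  right_inv a := by ext s; simp

lemma prod_sum_expand (M : Matrix n κ ℂ) (a : S → n) (f : κ → ℂ) :
    ∏ s, (∑ y, M (a s) y * f y) = ∑ y : S → κ, (∏ s, M (a s) (y s)) * ∏ s, f (y s) := by
  rw [Finset.prod_univ_sum, Fintype.piFinset_univ]
  simp only [Finset.prod_mul_distrib]

lemma bessel (M : Matrix n κ ℂ) (hM : Mᴴ * M = 1) (b : (S → n) → ℂ) :
    ∑ y : S → κ, ‖∑ a, b a * ∏ s, M (a s) (y s)‖ ^ 2 ≤ ∑ a, ‖b a‖ ^ 2 := by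
  let v : (S → κ) → EuclideanSpace ℂ (S → n) := fun y =>
    WithLp.toLp 2 fun a => conj (∏ s, M (a s) (y s))
  have hv : Orthonormal ℂ v := by
    rw [orthonormal_iff_ite]
    intro y z
    have h1 : inner ℂ (v y) (v z) = ∏ s, (Mᴴ * M) (z s) (y s) := by
      simp only [v, PiLp.inner_apply, RCLike.inner_apply, Complex.conj_conj]
      have h2 : ∀ s, (Mᴴ * M) (z s) (y s) = ∑ x, conj (M x (z s)) * M x (y s) := by
        intro s
        simp [Matrix.mul_apply]
      simp only [h2]
      rw [Finset.prod_univ_sum, Fintype.piFinset_univ]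
      refine Finset.sum_congr rfl fun a _ => ?_
      rw [Finset.prod_mul_distrib, map_prod]
    rw [h1, hM]
    by_cases hyz : y = z
    · subst hyz; simp
    · rw [if_neg hyz]
      obtain ⟨s, hs⟩ := Function.ne_iff.1 hyz
      exact Finset.prod_eq_zero (Finset.mem_univ s) (by simp [Matrix.one_apply, Ne.symm hs])
  have h3 := hv.sum_inner_products_le (x := WithLp.toLp 2 b) (s := Finset.univ)
  rw [EuclideanSpace.norm_sq_eq] at h3
  have h4 : ∀ y, inner ℂ (v y) (WithLp.toLp 2 b) = ∑ a, b a * ∏ s, M (a s) (y s) := by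
    intro y
    simp only [v, PiLp.inner_apply, RCLike.inner_apply, Complex.conj_conj]
  simpa only [h4] using h3

lemma sl (x0 : κ) (M : Matrix n κ ℂ) (hM : Mᴴ * M = 1) (b : (S → n) → ℂ)
    (hb : ∀ (π : Equiv.Perm S) a, b (a ∘ π) = b a) :
    ∫ u, ‖∑ a, b a * ∏ s, (∑ y, M (a s) y * ent u y x0)‖ ^ 2 ∂(haarU κ) ≤
      (((Fintype.card S).factorial : ℝ) / ((Fintype.card κ).ascFactorial (Fintype.card S) : ℝ)) *
        ∑ a, ‖b a‖ ^ 2 := by
  set b' : (S → κ) → ℂ := fun y => ∑ a, b a * ∏ s, M (a s) (y s) with hb'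
  have hsym : ∀ (π : Equiv.Perm S) y, b' (y ∘ π) = b' y := by
    intro π y
    rw [hb']
    simp only
    rw [← Equiv.sum_comp (pre π)]
    refine Finset.sum_congr rfl fun a _ => ?_
    change b (a ∘ π) * ∏ s, M (a (π s)) (y (π s)) = _
    rw [hb, Equiv.prod_comp π (fun s => M (a s) (y s))]
  have h1 : ∀ u : UU κ, ∑ a, b a * ∏ s, (∑ y, M (a s) y * ent u y x0) =
      ∑ y, b' y * ∏ s, ent u (y s) x0 := by
    intro u
    simp only [prod_sum_expand, hb', Finset.mul_sum, Finset.sum_mul]
    rw [Finset.sum_comm]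
    refine Finset.sum_congr rfl fun y _ => Finset.sum_congr rfl fun a _ => ?_
    ring
  have hpos : (0 : ℝ) < ((Fintype.card κ).ascFactorial (Fintype.card S) : ℝ) := by
    have : Nonempty κ := ⟨x0⟩
    have h0 : 0 < Fintype.card κ := Fintype.card_pos
    obtain ⟨m, hm⟩ := Nat.exists_eq_succ_of_ne_zero h0.ne'
    rw [hm]
    exact_mod_cast Nat.ascFactorial_pos _ _
  have h2 : ((∫ u, ‖∑ a, b a * ∏ s, (∑ y, M (a s) y * ent u y x0)‖ ^ 2 ∂(haarU κ) : ℝ) : ℂ) =
      (((((Fintype.card S).factorial : ℝ) /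
        ((Fintype.card κ).ascFactorial (Fintype.card S) : ℝ)) * ∑ y, ‖b' y‖ ^ 2 : ℝ) : ℂ) := by
    simp only [h1]
    rw [int_normsq_sum (fun y u => b' y * ∏ s, ent u (y s) x0)
      (fun y => continuous_const.mul (continuous_prod_ent x0 y))]
    have h3 : ∀ y z : S → κ, ∫ u, b' y * (∏ s, ent u (y s) x0) *
        conj (b' z * ∏ s, ent u (z s) x0) ∂(haarU κ) = b' y * conj (b' z) *
        ((nP y z : ℂ) / ((Fintype.card κ).ascFactorial (Fintype.card S) : ℂ)) := by
      intro y z
      rw [← sm x0 y z, ← integral_const_mul]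
      refine integral_congr_ae (Filter.Eventually.of_forall fun V => ?_)
      simp only [map_mul]; ring
    simp only [h3]
    have h4 : ∀ y : S → κ, ∑ z, b' y * conj (b' z) *
        ((nP y z : ℂ) / ((Fintype.card κ).ascFactorial (Fintype.card S) : ℂ)) =
        ((Fintype.card S).factorial : ℂ) * (b' y * conj (b' y)) /
          ((Fintype.card κ).ascFactorial (Fintype.card S) : ℂ) := by
      intro y
      have : ∑ z, b' y * conj (b' z) *
        ((nP y z : ℂ) / ((Fintype.card κ).ascFactorial (Fintype.card S) : ℂ)) =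
        (∑ π : Equiv.Perm S, ∑ z, if y ∘ π = z then b' y * conj (b' z) else 0) /
          ((Fintype.card κ).ascFactorial (Fintype.card S) : ℂ) := by
        rw [Finset.sum_comm, Finset.sum_div]
        refine Finset.sum_congr rfl fun z _ => ?_
        unfold nP
        rw [mul_div_assoc', ]
        congr 1
        push_cast
        rw [Finset.mul_sum]
        refine Finset.sum_congr rfl fun π _ => ?_
        split_ifs <;> simp
      rw [this]
      congr 1
      simp only [Finset.sum_ite_eq, Finset.mem_univ, if_true, hsym]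
      rw [Finset.sum_const, Finset.card_univ, Fintype.card_perm, nsmul_eq_mul]
    simp only [h4]
    rw [← Finset.sum_div, ← Finset.mul_sum]
    push_cast
    rw [div_mul_eq_mul_div]
    congr 2
    refine Finset.sum_congr rfl fun y _ => ?_
    rw [Complex.mul_conj, Complex.normSq_eq_norm_sq]; push_cast; rfl
  have h5 := Complex.ofReal_injective h2
  rw [h5]
  exact mul_le_mul_of_nonneg_left (bessel M hM b) (by positivity)

end Pool.Agent.U696.MO
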